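import Mathlib

set_option autoImplicit false

/-!
Expansions of the duality map of `ℓ_p` at `p = 2`.
-/

namespace Pool.Agent.Lib.MP_3da572_an

open Filter Topology ComplexConjugate

/-- One coordinate of the duality map of `ℓ_{2+ε}`. -/
noncomputable def J (ε : ℝ) (z : ℂ) : ℂ := conj z * ((‖z‖ ^ ε : ℝ) : ℂ)

/-- The derivative of `J ε z` at `ε = 0`. -/
noncomputable def hh (z : ℂ) : ℂ := conj z * ((Real.log ‖z‖ : ℝ) : ℂ)

/-- `‖z‖ ^ (2 + ε)`. -/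
noncomputable def MM (ε : ℝ) (z : ℂ) : ℝ := ‖z‖ ^ 2 * ‖z‖ ^ ε

theorem exp_neg_bounds {y : ℝ} (hy : 0 ≤ y) :
    0 ≤ Real.exp (-y) - 1 + y ∧ Real.exp (-y) - 1 + y ≤ y ^ 2 / 2 := by
  constructor
  · have := Real.add_one_le_exp (-y)
    linarith
  · have h1 := Real.quadratic_le_exp_of_nonneg hy
    have h2 : 0 < 1 + y + y ^ 2 / 2 := by positivity
    have h3 : Real.exp (-y) ≤ 1 - y + y ^ 2 / 2 := by
      rw [Real.exp_neg]
      have h4 : (Real.exp y)⁻¹ ≤ (1 + y + y ^ 2 / 2)⁻¹ := inv_anti₀ h2 h1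
      refine h4.trans ?_
      rw [inv_le_iff_one_le_mul₀ h2]
      nlinarith [sq_nonneg (y ^ 2)]
    linarith

theorem rpow_expansion {t ε : ℝ} (ht : 0 ≤ t) (ht1 : t ≤ 1) (hε : 0 ≤ ε) :
    |t * t ^ ε - t - ε * (t * Real.log t)| ≤ ε ^ 2 := by
  rcases ht.eq_or_lt with h0 | h0
  · subst h0
    simp
    positivity
  · have hlog : Real.log t ≤ 0 := Real.log_nonpos ht ht1
    set s : ℝ := -Real.log t with hs
    have hs0 : 0 ≤ s := by rw [hs]; linarith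
    have hts : t = Real.exp (-s) := by rw [hs, neg_neg, Real.exp_log h0]
    have hlog' : Real.log t = -s := by rw [hs, neg_neg]
    have hpow : t ^ ε = Real.exp (-(ε * s)) := by
      rw [Real.rpow_def_of_pos h0, hlog']
      congr 1
      ring
    have hb := exp_neg_bounds (mul_nonneg hε hs0)
    rw [hpow, hlog']
    have h1 : t * Real.exp (-(ε * s)) - t - ε * (t * -s) =
        t * (Real.exp (-(ε * s)) - 1 + ε * s) := by ring
    rw [h1, abs_mul, abs_of_nonneg ht, abs_of_nonneg hb.1]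
    have h2 : t * (Real.exp (-(ε * s)) - 1 + ε * s) ≤ t * ((ε * s) ^ 2 / 2) :=
      mul_le_mul_of_nonneg_left hb.2 ht
    refine h2.trans ?_
    have h3 : s ^ 2 ≤ 2 * Real.exp s := by
      have := Real.quadratic_le_exp_of_nonneg hs0
      linarith
    have h4 : t * s ^ 2 ≤ 2 := by
      have h5 : t * Real.exp s = 1 := by
        rw [hts, ← Real.exp_add]
        simp
      calc t * s ^ 2 ≤ t * (2 * Real.exp s) := mul_le_mul_of_nonneg_left h3 ht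
        _ = 2 * (t * Real.exp s) := by ring
        _ = 2 := by rw [h5]; ring
    have h6 : t * ((ε * s) ^ 2 / 2) = ε ^ 2 * (t * s ^ 2) / 2 := by ring
    rw [h6]
    nlinarith [sq_nonneg ε]

theorem J_expansion {z : ℂ} {ε : ℝ} (hz : ‖z‖ ≤ 1) (hε : 0 ≤ ε) :
    ‖J ε z - conj z - (ε : ℂ) * hh z‖ ≤ ε ^ 2 := by
  have h1 : J ε z - conj z - (ε : ℂ) * hh z =
      conj z * ((‖z‖ ^ ε - 1 - ε * Real.log ‖z‖ : ℝ) : ℂ) := by
    simp only [J, hh]
    push_cast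
    ring
  rw [h1, norm_mul, RCLike.norm_conj, Complex.norm_real, Real.norm_eq_abs]
  have h2 := rpow_expansion (norm_nonneg z) hz hε
  have h3 : ‖z‖ * ‖z‖ ^ ε - ‖z‖ - ε * (‖z‖ * Real.log ‖z‖) =
      ‖z‖ * (‖z‖ ^ ε - 1 - ε * Real.log ‖z‖) := by ring
  rw [h3, abs_mul, abs_of_nonneg (norm_nonneg z)] at h2
  exact h2

theorem MM_expansion {z : ℂ} {ε : ℝ} (hz : ‖z‖ ≤ 1) (hε : 0 ≤ ε) :
    |MM ε z - ‖z‖ ^ 2 - ε * (‖z‖ ^ 2 * Real.log ‖z‖)| ≤ ε ^ 2 := by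
  have h2 := rpow_expansion (norm_nonneg z) hz hε
  have h1 : MM ε z - ‖z‖ ^ 2 - ε * (‖z‖ ^ 2 * Real.log ‖z‖) =
      ‖z‖ * (‖z‖ * ‖z‖ ^ ε - ‖z‖ - ε * (‖z‖ * Real.log ‖z‖)) := by
    simp only [MM]; ring
  rw [h1, abs_mul, abs_of_nonneg (norm_nonneg z)]
  have h3 : ‖z‖ * |‖z‖ * ‖z‖ ^ ε - ‖z‖ - ε * (‖z‖ * Real.log ‖z‖)| ≤ 1 * ε ^ 2 :=
    mul_le_mul hz h2 (abs_nonneg _) zero_le_one
  linarith

theorem continuous_hh : Continuous hh := by
  rw [continuous_iff_continuousAt]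
  intro z
  by_cases hz : z = 0
  · subst hz
    have h0 : hh 0 = 0 := by simp [hh]
    rw [ContinuousAt, h0, tendsto_zero_iff_norm_tendsto_zero]
    have h1 : Tendsto (fun z : ℂ => |‖z‖ * Real.log ‖z‖|) (𝓝 0) (𝓝 0) := by
      have h2 : Continuous fun z : ℂ => |‖z‖ * Real.log ‖z‖| :=
        (Real.continuous_mul_log.comp continuous_norm).abs
      have h3 := h2.tendsto 0
      simpa using h3
    refine h1.congr ?_
    intro z
    simp only [hh]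
    rw [norm_mul, RCLike.norm_conj, Complex.norm_real, Real.norm_eq_abs, abs_mul,
      abs_of_nonneg (norm_nonneg z)]
  · have hn : ‖z‖ ≠ 0 := norm_ne_zero_iff.mpr hz
    have h1 : ContinuousAt (fun z : ℂ => Real.log ‖z‖) z :=
      ContinuousAt.log continuous_norm.continuousAt hn
    have h2 : ContinuousAt (fun z : ℂ => ((Real.log ‖z‖ : ℝ) : ℂ)) z :=
      Complex.continuous_ofReal.continuousAt.comp h1
    exact Complex.continuous_conj.continuousAt.mul h2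

theorem continuous_sq_log : Continuous fun z : ℂ => ‖z‖ ^ 2 * Real.log ‖z‖ := by
  have h1 : (fun z : ℂ => ‖z‖ ^ 2 * Real.log ‖z‖) = fun z => ‖z‖ * (‖z‖ * Real.log ‖z‖) := by
    ext z; ring
  rw [h1]
  exact continuous_norm.mul (Real.continuous_mul_log.comp continuous_norm)

theorem tendsto_J_quot {ε : ℕ → ℝ} (hε0 : ∀ n, 0 < ε n) (hε : Tendsto ε atTop (𝓝 0))
    {x : ℕ → ℂ} (hx1 : ∀ n, ‖x n‖ ≤ 1) {a : ℂ} (hx : Tendsto x atTop (𝓝 a)) :
    Tendsto (fun n => (J (ε n) (x n) - conj (x n)) / (ε n : ℂ)) atTop (𝓝 (hh a)) := by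
  have h1 : Tendsto (fun n => hh (x n)) atTop (𝓝 (hh a)) := (continuous_hh.tendsto a).comp hx
  have h2 : Tendsto (fun n => (J (ε n) (x n) - conj (x n)) / (ε n : ℂ) - hh (x n)) atTop
      (𝓝 0) := by
    rw [tendsto_zero_iff_norm_tendsto_zero]
    refine squeeze_zero (fun _ => norm_nonneg _) ?_ hε
    intro n
    have hn := hε0 n
    have hne : (ε n : ℂ) ≠ 0 := by exact_mod_cast hn.ne'
    have h3 : (J (ε n) (x n) - conj (x n)) / (ε n : ℂ) - hh (x n) =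
        (J (ε n) (x n) - conj (x n) - (ε n : ℂ) * hh (x n)) / (ε n : ℂ) := by
      field_simp
    rw [h3, norm_div, Complex.norm_real, Real.norm_eq_abs, abs_of_pos hn, div_le_iff₀ hn]
    have := J_expansion (hx1 n) hn.le
    nlinarith
  have h3 := h2.add h1
  simpa using h3

theorem tendsto_MM_quot {ε : ℕ → ℝ} (hε0 : ∀ n, 0 < ε n) (hε : Tendsto ε atTop (𝓝 0))
    {x : ℕ → ℂ} (hx1 : ∀ n, ‖x n‖ ≤ 1) {a : ℂ} (hx : Tendsto x atTop (𝓝 a)) :
    Tendsto (fun n => (MM (ε n) (x n) - ‖x n‖ ^ 2) / ε n) atTop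
      (𝓝 (‖a‖ ^ 2 * Real.log ‖a‖)) := by
  have h1 : Tendsto (fun n => ‖x n‖ ^ 2 * Real.log ‖x n‖) atTop
      (𝓝 (‖a‖ ^ 2 * Real.log ‖a‖)) := (continuous_sq_log.tendsto a).comp hx
  have h2 : Tendsto (fun n => (MM (ε n) (x n) - ‖x n‖ ^ 2) / ε n -
      ‖x n‖ ^ 2 * Real.log ‖x n‖) atTop (𝓝 0) := by
    rw [tendsto_zero_iff_norm_tendsto_zero]
    refine squeeze_zero (fun _ => norm_nonneg _) ?_ hε
    intro n
    have hn := hε0 n
    have h3 : (MM (ε n) (x n) - ‖x n‖ ^ 2) / ε n - ‖x n‖ ^ 2 * Real.log ‖x n‖ =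
        (MM (ε n) (x n) - ‖x n‖ ^ 2 - ε n * (‖x n‖ ^ 2 * Real.log ‖x n‖)) / ε n := by
      field_simp
    rw [h3, norm_div, Real.norm_eq_abs, Real.norm_eq_abs, abs_of_pos hn, div_le_iff₀ hn]
    have := MM_expansion (hx1 n) hn.le
    nlinarith
  have h3 := h2.add h1
  simpa using h3

/-- From difference quotients to convergence. -/
theorem tendsto_of_quot {𝕜 : Type*} [RCLike 𝕜] {ε : ℕ → ℝ} (hε0 : ∀ n, 0 < ε n)
    (hε : Tendsto ε atTop (𝓝 0)) {f g : ℕ → 𝕜} {c l : 𝕜}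
    (h : Tendsto (fun n => (f n - g n) / (ε n : 𝕜)) atTop (𝓝 c))
    (hg : Tendsto g atTop (𝓝 l)) : Tendsto f atTop (𝓝 l) := by
  have h1 : Tendsto (fun n => ((ε n : ℝ) : 𝕜)) atTop (𝓝 (0 : 𝕜)) := by
    have := (RCLike.continuous_ofReal (K := 𝕜)).tendsto 0
    rw [RCLike.ofReal_zero] at this
    exact this.comp hε
  have h2 := (h.mul h1).add hg
  rw [mul_zero, zero_add] at h2
  refine h2.congr ?_
  intro n
  have hne : ((ε n : ℝ) : 𝕜) ≠ 0 := by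
    have := (hε0 n).ne'
    exact_mod_cast this
  field_simp
  ring

end Pool.Agent.Lib.MP_3da572_an
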