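import Pool.Agent.Lib.MP_3da572_an.Basic

set_option autoImplicit false

namespace Pool.Agent.Lib.MP_3da572_an

open Filter Topology ComplexConjugate

theorem norm_half_le {U V w : ℂ} (hU : ‖U‖ ≤ 1) (hV : ‖V‖ ≤ 1) (hw : ‖w‖ = 1) :
    ‖(U + w * V) / 2‖ ≤ 1 := by
  rw [norm_div]
  have h1 : ‖U + w * V‖ ≤ ‖U‖ + ‖w * V‖ := norm_add_le _ _
  rw [norm_mul, hw, one_mul] at h1
  norm_num
  linarith

/-- One coordinate, one root of unity. -/
theorem coord_one {ε : ℕ → ℝ} (hε0 : ∀ n, 0 < ε n) (hε : Tendsto ε atTop (𝓝 0))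
    {U V : ℕ → ℂ} (hU1 : ∀ n, ‖U n‖ ≤ 1) (hV1 : ∀ n, ‖V n‖ ≤ 1) {u v : ℂ}
    (hU : Tendsto U atTop (𝓝 u)) (hV : Tendsto V atTop (𝓝 v)) {w : ℂ} (hw : ‖w‖ = 1) :
    Tendsto (fun n => ((U n * J (ε n) ((U n + w * V n) / 2)).re - MM (ε n) ((U n + w * V n) / 2) -
      ((‖U n‖ ^ 2 - ‖V n‖ ^ 2) / 4)) / ε n) atTop
      (𝓝 ((‖u‖ ^ 2 - ‖v‖ ^ 2) / 4 * Real.log ‖(u + w * v) / 2‖)) := by
  have hX : Tendsto (fun n => (U n + w * V n) / 2) atTop (𝓝 ((u + w * v) / 2)) :=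
    (hU.add (hV.const_mul w)).div_const 2
  have hX1 : ∀ n, ‖(U n + w * V n) / 2‖ ≤ 1 := fun n => norm_half_le (hU1 n) (hV1 n) hw
  have hJ := tendsto_J_quot hε0 hε hX1 hX
  have hM := tendsto_MM_quot hε0 hε hX1 hX
  have hid : ∀ U V : ℂ, (U * conj ((U + w * V) / 2)).re - ‖(U + w * V) / 2‖ ^ 2 =
      (‖U‖ ^ 2 - ‖V‖ ^ 2) / 4 := by
    intro U V
    have hw2 : w.re * w.re + w.im * w.im = 1 := by
      rw [← Complex.normSq_apply, ← Complex.sq_norm, hw]; norm_num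
    simp only [Complex.sq_norm, Complex.normSq_apply, Complex.mul_re, Complex.mul_im,
      Complex.conj_re, Complex.conj_im, Complex.add_re, Complex.add_im, Complex.div_ofNat_re,
      Complex.div_ofNat_im]
    linear_combination (-(V.re * V.re + V.im * V.im) / 4) * hw2
  have hlim : (u * hh ((u + w * v) / 2)).re -
      ‖(u + w * v) / 2‖ ^ 2 * Real.log ‖(u + w * v) / 2‖ =
      (‖u‖ ^ 2 - ‖v‖ ^ 2) / 4 * Real.log ‖(u + w * v) / 2‖ := by
    rw [← hid u v, sub_mul]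
    congr 1
    simp only [hh]
    rw [← mul_assoc, Complex.re_mul_ofReal]
  rw [← hlim]
  have h1 := (Complex.continuous_re.tendsto _).comp (hU.mul hJ)
  refine (h1.sub hM).congr ?_
  intro n
  simp only [Function.comp]
  have hne := (hε0 n).ne'
  have h2 : U n * ((J (ε n) ((U n + w * V n) / 2) - conj ((U n + w * V n) / 2)) / (ε n : ℂ)) =
      ((1 / ε n : ℝ) : ℂ) * (U n * J (ε n) ((U n + w * V n) / 2) -
        U n * conj ((U n + w * V n) / 2)) := by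
    push_cast
    ring
  rw [h2, Complex.re_ofReal_mul, Complex.sub_re, ← hid (U n) (V n)]
  field_simp
  ring

theorem coord_M {ε : ℕ → ℝ} (hε0 : ∀ n, 0 < ε n) (hε : Tendsto ε atTop (𝓝 0))
    {U V : ℕ → ℂ} (hU1 : ∀ n, ‖U n‖ ≤ 1) (hV1 : ∀ n, ‖V n‖ ≤ 1) {u v : ℂ}
    (hU : Tendsto U atTop (𝓝 u)) (hV : Tendsto V atTop (𝓝 v)) {w : ℂ} (hw : ‖w‖ = 1) :
    Tendsto (fun n => MM (ε n) ((U n + w * V n) / 2)) atTop (𝓝 (‖(u + w * v) / 2‖ ^ 2)) := by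
  have hX : Tendsto (fun n => (U n + w * V n) / 2) atTop (𝓝 ((u + w * v) / 2)) :=
    (hU.add (hV.const_mul w)).div_const 2
  have hX1 : ∀ n, ‖(U n + w * V n) / 2‖ ≤ 1 := fun n => norm_half_le (hU1 n) (hV1 n) hw
  have hM := tendsto_MM_quot hε0 hε hX1 hX
  exact tendsto_of_quot (𝕜 := ℝ) hε0 hε hM (hX.norm.pow 2)

/-- The weighted sum of duality maps over the fourth roots of unity is `O(ε)`. -/
theorem coord_J {ε : ℕ → ℝ} (hε0 : ∀ n, 0 < ε n) (hε : Tendsto ε atTop (𝓝 0))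
    {U V : ℕ → ℂ} (hU1 : ∀ n, ‖U n‖ ≤ 1) (hV1 : ∀ n, ‖V n‖ ≤ 1) {u v : ℂ}
    (hU : Tendsto U atTop (𝓝 u)) (hV : Tendsto V atTop (𝓝 v)) :
    ∃ l : ℂ, Tendsto (fun n => (J (ε n) ((U n + 1 * V n) / 2) -
      J (ε n) ((U n + (-1) * V n) / 2) +
      (-Complex.I) * J (ε n) ((U n + Complex.I * V n) / 2) +
      Complex.I * J (ε n) ((U n + (-Complex.I) * V n) / 2)) / (ε n : ℂ)) atTop (𝓝 l) := by
  have hlim : ∀ w : ℂ, ‖w‖ = 1 → Tendsto (fun n => (J (ε n) ((U n + w * V n) / 2) -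
      conj ((U n + w * V n) / 2)) / (ε n : ℂ)) atTop (𝓝 (hh ((u + w * v) / 2))) := by
    intro w hw
    have hX : Tendsto (fun n => (U n + w * V n) / 2) atTop (𝓝 ((u + w * v) / 2)) :=
      (hU.add (hV.const_mul w)).div_const 2
    have hX1 : ∀ n, ‖(U n + w * V n) / 2‖ ≤ 1 := fun n => norm_half_le (hU1 n) (hV1 n) hw
    exact tendsto_J_quot hε0 hε hX1 hX
  have h1 := hlim 1 (by simp)
  have h2 := hlim (-1) (by simp)
  have h3 := hlim Complex.I (by simp)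
  have h4 := hlim (-Complex.I) (by simp)
  refine ⟨_, (((h1.sub h2).add (h3.const_mul (-Complex.I))).add
    (h4.const_mul Complex.I)).congr ?_⟩
  intro n
  simp only [map_div₀, map_add, map_mul, map_neg, Complex.conj_I, map_one]
  have hc2 : conj (2:ℂ) = 2 := Complex.conj_ofNat 2
  rw [hc2]
  have hI : Complex.I * Complex.I = -1 := Complex.I_mul_I
  have hne : (ε n : ℂ) ≠ 0 := by exact_mod_cast (hε0 n).ne'
  field_simp
  linear_combination (-(2 * conj (V n))) * hI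

end Pool.Agent.Lib.MP_3da572_an
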