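import Mathlib

set_option autoImplicit false

/-!
Numerical radius and numerical index of a normed space.
-/

namespace Pool.Agent.Lib.MP_3da572_an

/-- The numerical radius `v(T) = sup { |x*(T x)| : ‖x‖ = ‖x*‖ = x*(x) = 1 }` of a bounded operator
`T` on a normed space `X` over `𝕜`. -/
noncomputable def numRadius (𝕜 : Type*) {X : Type*} [RCLike 𝕜] [NormedAddCommGroup X]
    [NormedSpace 𝕜 X] (T : X →L[𝕜] X) : ℝ :=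
  sSup {r : ℝ | ∃ (x : X) (f : X →L[𝕜] 𝕜), ‖x‖ = 1 ∧ ‖f‖ = 1 ∧ f x = 1 ∧ r = ‖f (T x)‖}

/-- The numerical index `n(X) = inf { v(T) : T ∈ L(X), ‖T‖ = 1 }` of a normed space `X` over
`𝕜`. -/
noncomputable def numIndex (𝕜 X : Type*) [RCLike 𝕜] [NormedAddCommGroup X]
    [NormedSpace 𝕜 X] : ℝ :=
  sInf {r : ℝ | ∃ T : X →L[𝕜] X, ‖T‖ = 1 ∧ r = numRadius 𝕜 T}

section

variable {𝕜 X : Type*} [RCLike 𝕜] [NormedAddCommGroup X] [NormedSpace 𝕜 X]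

theorem le_opNorm_of_unit (T : X →L[𝕜] X) (x : X) (f : X →L[𝕜] 𝕜) (hx : ‖x‖ = 1)
    (hf : ‖f‖ = 1) : ‖f (T x)‖ ≤ ‖T‖ := by
  have h1 := f.le_opNorm (T x)
  have h2 := T.le_opNorm x
  rw [hf, one_mul] at h1
  rw [hx, mul_one] at h2
  exact h1.trans h2

theorem le_numRadius (T : X →L[𝕜] X) (x : X) (f : X →L[𝕜] 𝕜) (hx : ‖x‖ = 1)
    (hf : ‖f‖ = 1) (hfx : f x = 1) : ‖f (T x)‖ ≤ numRadius 𝕜 T := by
  refine le_csSup ⟨‖T‖, ?_⟩ ⟨x, f, hx, hf, hfx, rfl⟩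
  rintro _ ⟨y, g, hy, hg, _, rfl⟩
  exact le_opNorm_of_unit T y g hy hg

theorem numRadius_nonneg (T : X →L[𝕜] X) : 0 ≤ numRadius 𝕜 T := by
  refine Real.sSup_nonneg ?_
  rintro _ ⟨y, g, _, _, _, rfl⟩
  exact norm_nonneg _

theorem numRadius_le (T : X →L[𝕜] X) (C : ℝ) (hC : 0 ≤ C)
    (h : ∀ (x : X) (f : X →L[𝕜] 𝕜), ‖x‖ = 1 → ‖f‖ = 1 → f x = 1 → ‖f (T x)‖ ≤ C) :
    numRadius 𝕜 T ≤ C := by
  refine Real.sSup_le ?_ hC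
  rintro _ ⟨y, g, hy, hg, hgy, rfl⟩
  exact h y g hy hg hgy

theorem numIndex_le (T : X →L[𝕜] X) (hT : ‖T‖ = 1) : numIndex 𝕜 X ≤ numRadius 𝕜 T := by
  refine csInf_le ⟨0, ?_⟩ ⟨T, hT, rfl⟩
  rintro _ ⟨S, _, rfl⟩
  exact numRadius_nonneg S

theorem le_numIndex [Nontrivial X] (C : ℝ) (h : ∀ T : X →L[𝕜] X, ‖T‖ = 1 → C ≤ numRadius 𝕜 T) :
    C ≤ numIndex 𝕜 X := by
  refine le_csInf ⟨_, ContinuousLinearMap.id 𝕜 X, ContinuousLinearMap.norm_id, rfl⟩ ?_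
  rintro _ ⟨S, hS, rfl⟩
  exact h S hS

end

end Pool.Agent.Lib.MP_3da572_an
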