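import Pool.Agent.Lib.MP_3da572_an.Basic

set_option autoImplicit false

namespace Pool.Agent.Lib.MP_3da572_an

open Filter Topology ComplexConjugate

theorem trig_zero (A B : ℂ) (h : ∀ w : ℂ, ‖w‖ = 1 → (w * A + w ^ 2 * B).re ≤ 0) :
    A = 0 ∧ B = 0 := by
  have hB2 : ∀ w : ℂ, ‖w‖ = 1 → (w ^ 2 * B).re ≤ 0 := by
    intro w hw
    have h1 := h w hw
    have h2 := h (-w) (by rw [norm_neg]; exact hw)
    simp only [Complex.add_re] at h1 h2
    have h3 : (-w * A).re = -(w * A).re := by simp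
    have h4 : (-w) ^ 2 = w ^ 2 := by ring
    rw [h3, h4] at h2
    linarith
  have hB : B = 0 := by
    by_contra hB0
    have hn : ‖B‖ ≠ 0 := norm_ne_zero_iff.mpr hB0
    obtain ⟨w, hw⟩ := IsAlgClosed.exists_pow_nat_eq (conj B / (‖B‖ : ℂ)) (n := 2) (by norm_num)
    have hwn : ‖w‖ = 1 := by
      have h1 : ‖w‖ ^ 2 = 1 := by
        rw [← norm_pow, hw, norm_div, RCLike.norm_conj, Complex.norm_real, norm_norm,
          div_self hn]
      nlinarith [norm_nonneg w]
    have h2 := hB2 w hwn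
    rw [hw] at h2
    have h3 : conj B / (‖B‖ : ℂ) * B = ((‖B‖ : ℝ) : ℂ) := by
      have h4 : conj B * B = ((‖B‖ ^ 2 : ℝ) : ℂ) := by
        rw [mul_comm, Complex.mul_conj, Complex.sq_norm]
      rw [div_mul_eq_mul_div, h4]
      have : (‖B‖ : ℂ) ≠ 0 := by exact_mod_cast hn
      push_cast
      field_simp
    rw [h3, Complex.ofReal_re] at h2
    have := norm_nonneg B
    exact hn (le_antisymm h2 this)
  refine ⟨?_, hB⟩
  by_contra hA0
  have hn : ‖A‖ ≠ 0 := norm_ne_zero_iff.mpr hA0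
  have hwn : ‖conj A / (‖A‖ : ℂ)‖ = 1 := by
    rw [norm_div, RCLike.norm_conj, Complex.norm_real, norm_norm, div_self hn]
  have h2 := h _ hwn
  rw [hB, mul_zero, add_zero] at h2
  have h3 : conj A / (‖A‖ : ℂ) * A = ((‖A‖ : ℝ) : ℂ) := by
    have h4 : conj A * A = ((‖A‖ ^ 2 : ℝ) : ℂ) := by
      rw [mul_comm, Complex.mul_conj, Complex.sq_norm]
    rw [div_mul_eq_mul_div, h4]
    have : (‖A‖ : ℂ) ≠ 0 := by exact_mod_cast hn
    push_cast
    field_simp
  rw [h3, Complex.ofReal_re] at h2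
  have := norm_nonneg A
  exact hn (le_antisymm h2 this)

/-- The Hilbert space case: an operator on `ℂ²` with numerical radius at most one half of its
norm, together with a norm attaining vector `v`, `u = T v`. -/
theorem hilbert_case (t11 t12 t21 t22 v1 v2 u1 u2 : ℂ)
    (hu1 : u1 = t11 * v1 + t12 * v2) (hu2 : u2 = t21 * v1 + t22 * v2)
    (hv : ‖v1‖ ^ 2 + ‖v2‖ ^ 2 = 1) (hu : ‖u1‖ ^ 2 + ‖u2‖ ^ 2 = 1)
    (L1 : ∀ x y : ℂ, ‖(t11 * x + t12 * y) * conj x + (t21 * x + t22 * y) * conj y‖ ≤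
      1 / 2 * (‖x‖ ^ 2 + ‖y‖ ^ 2))
    (L2 : ∀ x y : ℂ, ‖t11 * x + t12 * y‖ ^ 2 + ‖t21 * x + t22 * y‖ ^ 2 ≤ ‖x‖ ^ 2 + ‖y‖ ^ 2) :
    t11 * u1 + t12 * u2 = 0 ∧ t21 * u1 + t22 * u2 = 0 ∧ u1 * conj v1 + u2 * conj v2 = 0 := by
  set w1 := t11 * u1 + t12 * u2 with hw1
  set w2 := t21 * u1 + t22 * u2 with hw2
  set q := u1 * conj v1 + u2 * conj v2 with hq
  have huc : u1 * conj u1 + u2 * conj u2 = 1 := by
    rw [Complex.mul_conj, Complex.mul_conj, ← Complex.ofReal_add, ← Complex.sq_norm,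
      ← Complex.sq_norm, hu, Complex.ofReal_one]
  have hvc : v1 * conj v1 + v2 * conj v2 = 1 := by
    rw [Complex.mul_conj, Complex.mul_conj, ← Complex.ofReal_add, ← Complex.sq_norm,
      ← Complex.sq_norm, hv, Complex.ofReal_one]
  have hAB := trig_zero (w1 * conj u1 + w2 * conj u2) (w1 * conj v1 + w2 * conj v2) (by
    intro w hw
    -- use ω = conj w
    have hww : w * conj w = 1 := by
      rw [Complex.mul_conj, ← Complex.sq_norm, hw]; norm_num
    have h1 := L1 (u1 + conj w * v1) (u2 + conj w * v2)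
    have h2 : (t11 * (u1 + conj w * v1) + t12 * (u2 + conj w * v2)) * conj (u1 + conj w * v1) +
        (t21 * (u1 + conj w * v1) + t22 * (u2 + conj w * v2)) * conj (u2 + conj w * v2) =
        (w1 * conj u1 + w2 * conj u2) + w * (w1 * conj v1 + w2 * conj v2) + conj w + q := by
      simp only [map_add, map_mul, Complex.conj_conj]
      have e1 : t11 * (u1 + conj w * v1) + t12 * (u2 + conj w * v2) = w1 + conj w * u1 := by
        rw [hw1]; linear_combination (-conj w) * hu1
      have e2 : t21 * (u1 + conj w * v1) + t22 * (u2 + conj w * v2) = w2 + conj w * u2 := by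
        rw [hw2]; linear_combination (-conj w) * hu2
      rw [e1, e2, hq]
      linear_combination (conj w) * huc + (u1 * conj v1 + u2 * conj v2) * hww
    rw [h2] at h1
    have h3 : ‖u1 + conj w * v1‖ ^ 2 + ‖u2 + conj w * v2‖ ^ 2 = 2 + 2 * (w * q).re := by
      have e1 : ((‖u1 + conj w * v1‖ ^ 2 + ‖u2 + conj w * v2‖ ^ 2 : ℝ) : ℂ) =
          2 + (w * q + conj (w * q)) := by
        rw [Complex.ofReal_add, Complex.sq_norm, Complex.sq_norm, ← Complex.mul_conj,
          ← Complex.mul_conj, hq]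
        simp only [map_add, map_mul, Complex.conj_conj]
        linear_combination huc + (w * conj w) * hvc + hww
      rw [Complex.add_conj] at e1
      have e2 : ((‖u1 + conj w * v1‖ ^ 2 + ‖u2 + conj w * v2‖ ^ 2 : ℝ) : ℂ) =
          ((2 + 2 * (w * q).re : ℝ) : ℂ) := by
        rw [e1]; push_cast; ring
      exact_mod_cast e2
    rw [h3] at h1
    have h4 : (w * ((w1 * conj u1 + w2 * conj u2) + w * (w1 * conj v1 + w2 * conj v2) +
        conj w + q)).re ≤ ‖(w1 * conj u1 + w2 * conj u2) + w * (w1 * conj v1 + w2 * conj v2) +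
        conj w + q‖ := by
      refine (Complex.re_le_norm _).trans ?_
      rw [norm_mul, hw, one_mul]
    have h5 : w * ((w1 * conj u1 + w2 * conj u2) + w * (w1 * conj v1 + w2 * conj v2) +
        conj w + q) = (w * (w1 * conj u1 + w2 * conj u2) +
        w ^ 2 * (w1 * conj v1 + w2 * conj v2)) + 1 + w * q := by
      linear_combination hww
    rw [h5] at h4
    simp only [Complex.add_re, Complex.one_re] at h4 ⊢
    linarith)
  obtain ⟨hA, hB⟩ := hAB
  -- determinant
  set D := u1 * v2 - u2 * v1 with hD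
  have hlag : q * conj q + D * conj D = 1 := by
    have h1 : q * conj q + D * conj D = (u1 * conj u1 + u2 * conj u2) *
        (v1 * conj v1 + v2 * conj v2) := by
      rw [hq, hD]
      simp only [map_add, map_mul, map_sub, Complex.conj_conj]
      ring
    rw [h1, huc, hvc, one_mul]
  have hD0 : D ≠ 0 := by
    intro h0
    rw [h0, zero_mul, add_zero] at hlag
    have h1 : ‖q‖ ^ 2 = 1 := by
      rw [Complex.mul_conj, ← Complex.sq_norm] at hlag
      exact_mod_cast hlag
    have h2 := L1 v1 v2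
    rw [← hu1, ← hu2, ← hq, hv] at h2
    nlinarith [norm_nonneg q]
  have hDc : conj D ≠ 0 := by
    intro h0
    exact hD0 ((map_eq_zero _).mp h0)
  have hw10 : w1 = 0 := by
    have h1 : w1 * conj D = 0 := by
      rw [hD]
      simp only [map_sub, map_mul]
      linear_combination (conj v2) * hA - (conj u2) * hB
    exact (mul_eq_zero.mp h1).resolve_right hDc
  have hw20 : w2 = 0 := by
    have h1 : w2 * conj D = 0 := by
      rw [hD]
      simp only [map_sub, map_mul]
      linear_combination (conj u1) * hB - (conj v1) * hA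
    exact (mul_eq_zero.mp h1).resolve_right hDc
  refine ⟨hw10, hw20, ?_⟩
  -- orthogonality
  have h1 := L2 (v1 - conj q * u1) (v2 - conj q * u2)
  have e1 : t11 * (v1 - conj q * u1) + t12 * (v2 - conj q * u2) = u1 := by
    have : t11 * (v1 - conj q * u1) + t12 * (v2 - conj q * u2) = u1 - conj q * w1 := by
      rw [hw1, hu1]; ring
    rw [this, hw10]; ring
  have e2 : t21 * (v1 - conj q * u1) + t22 * (v2 - conj q * u2) = u2 := by
    have : t21 * (v1 - conj q * u1) + t22 * (v2 - conj q * u2) = u2 - conj q * w2 := by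
      rw [hw2, hu2]; ring
    rw [this, hw20]; ring
  rw [e1, e2, hu] at h1
  have h3 : ‖v1 - conj q * u1‖ ^ 2 + ‖v2 - conj q * u2‖ ^ 2 = 1 - ‖q‖ ^ 2 := by
    have e3 : ((‖v1 - conj q * u1‖ ^ 2 + ‖v2 - conj q * u2‖ ^ 2 : ℝ) : ℂ) =
        ((1 - ‖q‖ ^ 2 : ℝ) : ℂ) := by
      rw [Complex.ofReal_add, Complex.sq_norm, Complex.sq_norm, ← Complex.mul_conj,
        ← Complex.mul_conj, Complex.ofReal_sub, Complex.sq_norm, ← Complex.mul_conj,
        Complex.ofReal_one]
      have hqc : conj q = conj u1 * v1 + conj u2 * v2 := by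
        rw [hq]; simp only [map_add, map_mul, Complex.conj_conj]
      simp only [map_sub, map_mul, Complex.conj_conj]
      linear_combination hvc + (q * conj q) * huc + (-(q)) * hqc.symm + (-(conj q)) * hq.symm
    exact_mod_cast e3
  rw [h3] at h1
  have h4 : ‖q‖ ^ 2 ≤ 0 := by linarith
  have h5 : ‖q‖ = 0 := by nlinarith [norm_nonneg q, sq_nonneg ‖q‖]
  exact norm_eq_zero.mp h5

end Pool.Agent.Lib.MP_3da572_an
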