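import Pool.Agent.Lib.MP_3da572_an.Coord
import Pool.Agent.Lib.MP_3da572_an.Hilbert

set_option autoImplicit false

namespace Pool.Agent.Lib.MP_3da572_an

open Filter Topology ComplexConjugate

theorem MM_nonneg (ε : ℝ) (z : ℂ) : 0 ≤ MM ε z := by
  simp only [MM]; positivity

theorem norm_le_one_of_MM {ε : ℝ} (hε : 0 < ε) {z : ℂ} (h : MM ε z ≤ 1) : ‖z‖ ≤ 1 := by
  by_contra hcon
  push Not at hcon
  have h1 : 1 < ‖z‖ ^ ε := Real.one_lt_rpow hcon hε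
  have h2 : 1 < ‖z‖ ^ 2 := by nlinarith
  simp only [MM] at h
  nlinarith

theorem tendsto_J_fixed {ε : ℕ → ℝ} (hε0 : ∀ n, 0 < ε n) (hε : Tendsto ε atTop (𝓝 0)) (z : ℂ) :
    Tendsto (fun n => J (ε n) z) atTop (𝓝 (conj z)) := by
  by_cases hz : z = 0
  · subst hz
    simp [J]
  · have h1 : Tendsto (fun n => ‖z‖ ^ (ε n)) atTop (𝓝 (‖z‖ ^ (0:ℝ))) := by
      have h2 : Continuous fun t : ℝ => ‖z‖ ^ t :=
        Real.continuous_const_rpow (norm_ne_zero_iff.mpr hz)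
      exact (h2.tendsto 0).comp hε
    rw [Real.rpow_zero] at h1
    have h3 : Tendsto (fun n => ((‖z‖ ^ (ε n) : ℝ) : ℂ)) atTop (𝓝 ((1:ℝ) : ℂ)) :=
      (Complex.continuous_ofReal.tendsto _).comp h1
    have h4 := h3.const_mul (conj z)
    simpa [J] using h4

theorem tendsto_MM_fixed {ε : ℕ → ℝ} (hε0 : ∀ n, 0 < ε n) (hε : Tendsto ε atTop (𝓝 0)) (z : ℂ) :
    Tendsto (fun n => MM (ε n) z) atTop (𝓝 (‖z‖ ^ 2)) := by
  by_cases hz : z = 0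
  · subst hz
    simp [MM]
  · have h1 : Tendsto (fun n => ‖z‖ ^ (ε n)) atTop (𝓝 (‖z‖ ^ (0:ℝ))) := by
      have h2 : Continuous fun t : ℝ => ‖z‖ ^ t :=
        Real.continuous_const_rpow (norm_ne_zero_iff.mpr hz)
      exact (h2.tendsto 0).comp hε
    rw [Real.rpow_zero] at h1
    have h4 := h1.const_mul (‖z‖ ^ 2)
    simpa [MM] using h4

theorem tendsto_MM_seq {ε : ℕ → ℝ} (hε0 : ∀ n, 0 < ε n) (hε : Tendsto ε atTop (𝓝 0))
    {x : ℕ → ℂ} (hx1 : ∀ n, ‖x n‖ ≤ 1) {a : ℂ} (hx : Tendsto x atTop (𝓝 a)) :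
    Tendsto (fun n => MM (ε n) (x n)) atTop (𝓝 (‖a‖ ^ 2)) :=
  tendsto_of_quot (𝕜 := ℝ) hε0 hε (tendsto_MM_quot hε0 hε hx1 hx) (hx.norm.pow 2)

theorem combine_alg (e c x1 x2 x3 x4 y1 y2 y3 y4 d1 d2 M1 M2 M3 M4 N1 N2 N3 N4 : ℝ)
    (W1 W2 a1 a2 a3 a4 b1 b2 b3 b4 : ℂ) (he : e ≠ 0) :
    ((x1 - d1 / 4) / e + (x2 - d1 / 4) / e + (x3 - d1 / 4) / e + (x4 - d1 / 4) / e) +
      ((y1 - d2 / 4) / e + (y2 - d2 / 4) / e + (y3 - d2 / 4) / e + (y4 - d2 / 4) / e) +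
      (d1 + d2) / e +
      (W1 * ((a1 - a2 + (-Complex.I) * a3 + Complex.I * a4) / (e : ℂ)) +
        W2 * ((b1 - b2 + (-Complex.I) * b3 + Complex.I * b4) / (e : ℂ))).re +
      2 * c * ((M1 + N1) + (M2 + N2) + (M3 + N3) + (M4 + N4)) =
    ((x1 + y1 + (W1 * (1 * a1) + W2 * (1 * b1)).re + 2 * c * e * (M1 + N1)) +
      (x2 + y2 + (W1 * (-1 * a2) + W2 * (-1 * b2)).re + 2 * c * e * (M2 + N2)) +
      ((x3 + y3 + (W1 * (-Complex.I * a3) + W2 * (-Complex.I * b3)).re + 2 * c * e * (M3 + N3)) +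
      (x4 + y4 + (W1 * (Complex.I * a4) + W2 * (Complex.I * b4)).re +
        2 * c * e * (M4 + N4)))) / e := by
  have h1 : W1 * ((a1 - a2 + (-Complex.I) * a3 + Complex.I * a4) / (e : ℂ)) +
        W2 * ((b1 - b2 + (-Complex.I) * b3 + Complex.I * b4) / (e : ℂ)) =
      ((W1 * (1 * a1) + W2 * (1 * b1)) + (W1 * (-1 * a2) + W2 * (-1 * b2)) +
      (W1 * (-Complex.I * a3) + W2 * (-Complex.I * b3)) +
      (W1 * (Complex.I * a4) + W2 * (Complex.I * b4))) / (e : ℂ) := by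
    ring
  rw [h1, Complex.div_ofReal_re, Complex.add_re, Complex.add_re, Complex.add_re]
  field_simp
  ring

/-- Lower bound for the numerical radius of operators on `ℂ²` with the `(2+ε)`-norm. -/
theorem low (c : ℝ) (hc : 0 < c) : ∃ ε₀ : ℝ, 0 < ε₀ ∧ ∀ ε : ℝ, 0 < ε → ε < ε₀ →
    ∀ t11 t12 t21 t22 v1 v2 : ℂ, ∀ R : ℝ,
    (∀ x y : ℂ, ‖(t11 * x + t12 * y) * J ε x + (t21 * x + t22 * y) * J ε y‖ ≤
      R * (MM ε x + MM ε y)) →
    (∀ x y : ℂ, MM ε (t11 * x + t12 * y) + MM ε (t21 * x + t22 * y) ≤ MM ε x + MM ε y) →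
    MM ε v1 + MM ε v2 = 1 → MM ε (t11 * v1 + t12 * v2) + MM ε (t21 * v1 + t22 * v2) = 1 →
    1 / 2 - c * ε ≤ R := by
  by_contra hcon
  push Not at hcon
  have hex : ∀ n : ℕ, ∃ ε : ℝ, ∃ t11 t12 t21 t22 v1 v2 : ℂ, ∃ R : ℝ,
      0 < ε ∧ ε < 1 / ((n:ℝ) + 1) ∧
      (∀ x y : ℂ, ‖(t11 * x + t12 * y) * J ε x + (t21 * x + t22 * y) * J ε y‖ ≤
        R * (MM ε x + MM ε y)) ∧
      (∀ x y : ℂ, MM ε (t11 * x + t12 * y) + MM ε (t21 * x + t22 * y) ≤ MM ε x + MM ε y) ∧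
      MM ε v1 + MM ε v2 = 1 ∧ MM ε (t11 * v1 + t12 * v2) + MM ε (t21 * v1 + t22 * v2) = 1 ∧
      R < 1 / 2 - c * ε := by
    intro n
    obtain ⟨ε, h1, h2, t11, t12, t21, t22, v1, v2, R, h3, h4, h5, h6, h7⟩ :=
      hcon (1 / ((n:ℝ) + 1)) (by positivity)
    exact ⟨ε, t11, t12, t21, t22, v1, v2, R, h1, h2, h3, h4, h5, h6, h7⟩
  choose ε' p' q' r' s' v' w' R' hε0' hε1' hnum' hcontr' hv' hu' hR' using hex
  have hMM1 : ∀ ε : ℝ, MM ε 1 = 1 := by intro ε; simp [MM]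
  have hMM0 : ∀ ε : ℝ, MM ε 0 = 0 := by intro ε; simp [MM]
  have hp1' : ∀ n, ‖p' n‖ ≤ 1 := by
    intro n
    have h := hcontr' n 1 0
    simp only [mul_one, mul_zero, add_zero, hMM1, hMM0] at h
    exact norm_le_one_of_MM (hε0' n) (by linarith [MM_nonneg (ε' n) (r' n)])
  have hr1' : ∀ n, ‖r' n‖ ≤ 1 := by
    intro n
    have h := hcontr' n 1 0
    simp only [mul_one, mul_zero, add_zero, hMM1, hMM0] at h
    exact norm_le_one_of_MM (hε0' n) (by linarith [MM_nonneg (ε' n) (p' n)])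
  have hq1' : ∀ n, ‖q' n‖ ≤ 1 := by
    intro n
    have h := hcontr' n 0 1
    simp only [mul_one, mul_zero, zero_add, hMM1, hMM0] at h
    exact norm_le_one_of_MM (hε0' n) (by linarith [MM_nonneg (ε' n) (s' n)])
  have hs1' : ∀ n, ‖s' n‖ ≤ 1 := by
    intro n
    have h := hcontr' n 0 1
    simp only [mul_one, mul_zero, zero_add, hMM1, hMM0] at h
    exact norm_le_one_of_MM (hε0' n) (by linarith [MM_nonneg (ε' n) (q' n)])
  have hv1' : ∀ n, ‖v' n‖ ≤ 1 := fun n =>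
    norm_le_one_of_MM (hε0' n) (by linarith [MM_nonneg (ε' n) (w' n), hv' n])
  have hw1' : ∀ n, ‖w' n‖ ≤ 1 := fun n =>
    norm_le_one_of_MM (hε0' n) (by linarith [MM_nonneg (ε' n) (v' n), hv' n])
  have hmem : ∀ n, (p' n, q' n, r' n, s' n, v' n, w' n) ∈
      Metric.closedBall (0 : ℂ × ℂ × ℂ × ℂ × ℂ × ℂ) 1 := by
    intro n
    rw [mem_closedBall_zero_iff]
    simp only [Prod.norm_def]
    exact max_le (hp1' n) (max_le (hq1' n) (max_le (hr1' n) (max_le (hs1' n)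
      (max_le (hv1' n) (hw1' n)))))
  obtain ⟨⟨P, Q, R0, S, V, W⟩, -, φ, hφ, hlim⟩ :=
    (isCompact_closedBall (0 : ℂ × ℂ × ℂ × ℂ × ℂ × ℂ) 1).tendsto_subseq hmem
  have hεt' : Tendsto ε' atTop (𝓝 0) :=
    squeeze_zero (fun n => (hε0' n).le) (fun n => (hε1' n).le) tendsto_one_div_add_atTop_nhds_zero_nat
  -- subsequence
  obtain ⟨ε, hεdef⟩ : ∃ ε : ℕ → ℝ, ε = ε' ∘ φ := ⟨_, rfl⟩
  obtain ⟨p, hpdef⟩ : ∃ a : ℕ → ℂ, a = p' ∘ φ := ⟨_, rfl⟩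
  obtain ⟨q, hqdef⟩ : ∃ a : ℕ → ℂ, a = q' ∘ φ := ⟨_, rfl⟩
  obtain ⟨r, hrdef⟩ : ∃ a : ℕ → ℂ, a = r' ∘ φ := ⟨_, rfl⟩
  obtain ⟨s, hsdef⟩ : ∃ a : ℕ → ℂ, a = s' ∘ φ := ⟨_, rfl⟩
  obtain ⟨v1, hv1def⟩ : ∃ a : ℕ → ℂ, a = v' ∘ φ := ⟨_, rfl⟩
  obtain ⟨v2, hv2def⟩ : ∃ a : ℕ → ℂ, a = w' ∘ φ := ⟨_, rfl⟩
  obtain ⟨R, hRdef⟩ : ∃ a : ℕ → ℝ, a = R' ∘ φ := ⟨_, rfl⟩
  have hεt : Tendsto ε atTop (𝓝 0) := by rw [hεdef]; exact hεt'.comp hφ.tendsto_atTop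
  have hε0 : ∀ n, 0 < ε n := by intro n; rw [hεdef]; exact hε0' _
  have hnum : ∀ n, ∀ x y : ℂ, ‖(p n * x + q n * y) * J (ε n) x + (r n * x + s n * y) *
      J (ε n) y‖ ≤ R n * (MM (ε n) x + MM (ε n) y) := by
    intro n; rw [hεdef, hpdef, hqdef, hrdef, hsdef, hRdef]; exact hnum' _
  have hcontr : ∀ n, ∀ x y : ℂ, MM (ε n) (p n * x + q n * y) + MM (ε n) (r n * x + s n * y) ≤
      MM (ε n) x + MM (ε n) y := by
    intro n; rw [hεdef, hpdef, hqdef, hrdef, hsdef]; exact hcontr' _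
  have hv : ∀ n, MM (ε n) (v1 n) + MM (ε n) (v2 n) = 1 := by
    intro n; rw [hεdef, hv1def, hv2def]; exact hv' _
  have hR : ∀ n, R n < 1 / 2 - c * ε n := by
    intro n; rw [hεdef, hRdef]; exact hR' _
  obtain ⟨u1, hu1def⟩ : ∃ a : ℕ → ℂ, a = fun n => p n * v1 n + q n * v2 n := ⟨_, rfl⟩
  obtain ⟨u2, hu2def⟩ : ∃ a : ℕ → ℂ, a = fun n => r n * v1 n + s n * v2 n := ⟨_, rfl⟩
  have hu : ∀ n, MM (ε n) (u1 n) + MM (ε n) (u2 n) = 1 := by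
    intro n; rw [hu1def, hu2def, hεdef, hpdef, hqdef, hrdef, hsdef, hv1def, hv2def]; exact hu' _
  have hp : Tendsto p atTop (𝓝 P) := by
    rw [hpdef]; exact (continuous_fst.tendsto _).comp hlim
  have hq : Tendsto q atTop (𝓝 Q) := by
    rw [hqdef]; exact ((continuous_fst.comp continuous_snd).tendsto _).comp hlim
  have hr : Tendsto r atTop (𝓝 R0) := by
    rw [hrdef]; exact ((continuous_fst.comp (continuous_snd.comp continuous_snd)).tendsto _).comp hlim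
  have hs : Tendsto s atTop (𝓝 S) := by
    rw [hsdef]
    exact ((continuous_fst.comp (continuous_snd.comp (continuous_snd.comp
      continuous_snd))).tendsto _).comp hlim
  have hv1t : Tendsto v1 atTop (𝓝 V) := by
    rw [hv1def]
    exact ((continuous_fst.comp (continuous_snd.comp (continuous_snd.comp (continuous_snd.comp
      continuous_snd)))).tendsto _).comp hlim
  have hv2t : Tendsto v2 atTop (𝓝 W) := by
    rw [hv2def]
    exact ((continuous_snd.comp (continuous_snd.comp (continuous_snd.comp (continuous_snd.comp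
      continuous_snd)))).tendsto _).comp hlim
  have hp1 : ∀ n, ‖p n‖ ≤ 1 := by intro n; rw [hpdef]; exact hp1' _
  have hq1 : ∀ n, ‖q n‖ ≤ 1 := by intro n; rw [hqdef]; exact hq1' _
  have hr1 : ∀ n, ‖r n‖ ≤ 1 := by intro n; rw [hrdef]; exact hr1' _
  have hs1 : ∀ n, ‖s n‖ ≤ 1 := by intro n; rw [hsdef]; exact hs1' _
  clear hcon hnum' hcontr' hv' hu' hR' hmem hlim hpdef hqdef hrdef hsdef hv1def hv2def hRdef
    hεdef hεt' hε0' hε1' hp1' hq1' hr1' hs1' hv1' hw1'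
  have hv11 : ∀ n, ‖v1 n‖ ≤ 1 := fun n =>
    norm_le_one_of_MM (hε0 n) (by linarith [MM_nonneg (ε n) (v2 n), hv n])
  have hv21 : ∀ n, ‖v2 n‖ ≤ 1 := fun n =>
    norm_le_one_of_MM (hε0 n) (by linarith [MM_nonneg (ε n) (v1 n), hv n])
  have hu11 : ∀ n, ‖u1 n‖ ≤ 1 := fun n =>
    norm_le_one_of_MM (hε0 n) (by linarith [MM_nonneg (ε n) (u2 n), hu n])
  have hu21 : ∀ n, ‖u2 n‖ ≤ 1 := fun n =>
    norm_le_one_of_MM (hε0 n) (by linarith [MM_nonneg (ε n) (u1 n), hu n])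
  obtain ⟨U1, hU1⟩ : ∃ U1 : ℂ, U1 = P * V + Q * W := ⟨_, rfl⟩
  obtain ⟨U2, hU2⟩ : ∃ U2 : ℂ, U2 = R0 * V + S * W := ⟨_, rfl⟩
  have hu1t : Tendsto u1 atTop (𝓝 U1) := by
    rw [hu1def, hU1]; exact (hp.mul hv1t).add (hq.mul hv2t)
  have hu2t : Tendsto u2 atTop (𝓝 U2) := by
    rw [hu2def, hU2]; exact (hr.mul hv1t).add (hs.mul hv2t)
  -- limits of the normalisations
  have hVunit : ‖V‖ ^ 2 + ‖W‖ ^ 2 = 1 := by
    have h1 := (tendsto_MM_seq hε0 hεt hv11 hv1t).add (tendsto_MM_seq hε0 hεt hv21 hv2t)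
    simp only [hv] at h1
    exact (tendsto_nhds_unique tendsto_const_nhds h1).symm
  have hUunit : ‖U1‖ ^ 2 + ‖U2‖ ^ 2 = 1 := by
    have h1 := (tendsto_MM_seq hε0 hεt hu11 hu1t).add (tendsto_MM_seq hε0 hεt hu21 hu2t)
    simp only [hu] at h1
    exact (tendsto_nhds_unique tendsto_const_nhds h1).symm
  -- the limit inequalities
  have L1 : ∀ x y : ℂ, ‖(P * x + Q * y) * conj x + (R0 * x + S * y) * conj y‖ ≤
      1 / 2 * (‖x‖ ^ 2 + ‖y‖ ^ 2) := by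
    intro x y
    have h1 : Tendsto (fun n => ‖(p n * x + q n * y) * J (ε n) x + (r n * x + s n * y) *
        J (ε n) y‖) atTop (𝓝 ‖(P * x + Q * y) * conj x + (R0 * x + S * y) * conj y‖) :=
      ((((hp.mul_const x).add (hq.mul_const y)).mul (tendsto_J_fixed hε0 hεt x)).add
        (((hr.mul_const x).add (hs.mul_const y)).mul (tendsto_J_fixed hε0 hεt y))).norm
    have h2 : Tendsto (fun n => 1 / 2 * (MM (ε n) x + MM (ε n) y)) atTop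
        (𝓝 (1 / 2 * (‖x‖ ^ 2 + ‖y‖ ^ 2))) :=
      ((tendsto_MM_fixed hε0 hεt x).add (tendsto_MM_fixed hε0 hεt y)).const_mul _
    refine le_of_tendsto_of_tendsto' h1 h2 ?_
    intro n
    refine (hnum n x y).trans ?_
    have h3 : 0 ≤ MM (ε n) x + MM (ε n) y := add_nonneg (MM_nonneg _ _) (MM_nonneg _ _)
    have h4 : R n ≤ 1 / 2 := by nlinarith [hR n, hε0 n]
    exact mul_le_mul_of_nonneg_right h4 h3
  have L2small : ∀ x y : ℂ, ‖x‖ ≤ 1 / 2 → ‖y‖ ≤ 1 / 2 →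
      ‖P * x + Q * y‖ ^ 2 + ‖R0 * x + S * y‖ ^ 2 ≤ ‖x‖ ^ 2 + ‖y‖ ^ 2 := by
    intro x y hx hy
    have hb1 : ∀ n, ‖p n * x + q n * y‖ ≤ 1 := by
      intro n
      refine (norm_add_le _ _).trans ?_
      rw [norm_mul, norm_mul]
      nlinarith [hp1 n, hq1 n, norm_nonneg (p n), norm_nonneg (q n), norm_nonneg x, norm_nonneg y]
    have hb2 : ∀ n, ‖r n * x + s n * y‖ ≤ 1 := by
      intro n
      refine (norm_add_le _ _).trans ?_
      rw [norm_mul, norm_mul]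
      nlinarith [hr1 n, hs1 n, norm_nonneg (r n), norm_nonneg (s n), norm_nonneg x, norm_nonneg y]
    have h1 := (tendsto_MM_seq hε0 hεt hb1 ((hp.mul_const x).add (hq.mul_const y))).add
      (tendsto_MM_seq hε0 hεt hb2 ((hr.mul_const x).add (hs.mul_const y)))
    have h2 := (tendsto_MM_fixed hε0 hεt x).add (tendsto_MM_fixed hε0 hεt y)
    exact le_of_tendsto_of_tendsto' h1 h2 (fun n => hcontr n x y)
  have L2 : ∀ x y : ℂ, ‖P * x + Q * y‖ ^ 2 + ‖R0 * x + S * y‖ ^ 2 ≤ ‖x‖ ^ 2 + ‖y‖ ^ 2 := by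
    intro x y
    obtain ⟨t, ht, ht2⟩ : ∃ t : ℝ, 0 < t ∧ t * (‖x‖ + ‖y‖ + 1) = 1 / 2 := by
      refine ⟨1 / 2 / (‖x‖ + ‖y‖ + 1), by positivity, ?_⟩
      have : ‖x‖ + ‖y‖ + 1 ≠ 0 := by positivity
      field_simp
    have hx : ‖(t : ℂ) * x‖ ≤ 1 / 2 := by
      rw [norm_mul, Complex.norm_real, Real.norm_of_nonneg ht.le]
      nlinarith [norm_nonneg x, norm_nonneg y]
    have hy : ‖(t : ℂ) * y‖ ≤ 1 / 2 := by
      rw [norm_mul, Complex.norm_real, Real.norm_of_nonneg ht.le]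
      nlinarith [norm_nonneg x, norm_nonneg y]
    have h1 := L2small _ _ hx hy
    have e1 : P * ((t:ℂ) * x) + Q * ((t:ℂ) * y) = (t:ℂ) * (P * x + Q * y) := by ring
    have e2 : R0 * ((t:ℂ) * x) + S * ((t:ℂ) * y) = (t:ℂ) * (R0 * x + S * y) := by ring
    rw [e1, e2] at h1
    simp only [norm_mul, Complex.norm_real, Real.norm_of_nonneg ht.le, mul_pow] at h1
    rw [← mul_add, ← mul_add] at h1
    exact le_of_mul_le_mul_left h1 (by positivity)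
  obtain ⟨hTu1, hTu2, horth⟩ := hilbert_case P Q R0 S V W U1 U2 hU1 hU2 hVunit hUunit L1 L2
  -- consequences of orthogonality in dimension two
  have hmod : ‖U1‖ ^ 2 = ‖W‖ ^ 2 := by
    have h1 : ‖U1‖ * ‖V‖ = ‖U2‖ * ‖W‖ := by
      have h2 : U1 * conj V = -(U2 * conj W) := by linear_combination horth
      have h3 := congrArg norm h2
      rwa [norm_neg, norm_mul, norm_mul, RCLike.norm_conj, RCLike.norm_conj] at h3
    have h4 : ‖U1‖ ^ 2 * ‖V‖ ^ 2 = ‖U2‖ ^ 2 * ‖W‖ ^ 2 := by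
      rw [← mul_pow, ← mul_pow, h1]
    nlinarith
  have hmod2 : ‖U2‖ ^ 2 = ‖V‖ ^ 2 := by linarith
  have hmodn : ‖U1‖ = ‖W‖ := (sq_eq_sq₀ (norm_nonneg _) (norm_nonneg _)).mp hmod
  have hmodn2 : ‖U2‖ = ‖V‖ := (sq_eq_sq₀ (norm_nonneg _) (norm_nonneg _)).mp hmod2
  have hpair : ∀ w : ℂ, ‖w‖ = 1 → ‖(U1 + w * V) / 2‖ = ‖(U2 + (-w) * W) / 2‖ := by
    intro w hw
    have h0 : ‖(U1 + w * V) / 2‖ ^ 2 = ‖(U2 + (-w) * W) / 2‖ ^ 2 := by
      have e1 : U1 * conj V = -(U2 * conj W) := by linear_combination horth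
      have hre := congrArg Complex.re e1
      have him := congrArg Complex.im e1
      have hw2 : w.re * w.re + w.im * w.im = 1 := by
        rw [← Complex.normSq_apply, ← Complex.sq_norm, hw]; norm_num
      simp only [Complex.mul_re, Complex.mul_im, Complex.conj_re, Complex.conj_im,
        Complex.neg_re, Complex.neg_im] at hre him
      simp only [Complex.sq_norm, Complex.normSq_apply] at hmod hmod2
      simp only [Complex.sq_norm, Complex.normSq_apply, Complex.mul_re, Complex.mul_im,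
        Complex.add_re, Complex.add_im, Complex.div_ofNat_re,
        Complex.div_ofNat_im, Complex.neg_re, Complex.neg_im]
      linear_combination (1 / 4 : ℝ) * hmod - (1 / 4 : ℝ) * hmod2 + (w.re / 2) * hre +
        (w.im / 2) * him + (V.re * V.re + V.im * V.im - W.re * W.re - W.im * W.im) / 4 * hw2
    exact (sq_eq_sq₀ (norm_nonneg _) (norm_nonneg _)).mp h0
  obtain ⟨W1, hW1⟩ : ∃ W1 : ℕ → ℂ, W1 = fun n => p n * u1 n + q n * u2 n := ⟨_, rfl⟩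
  obtain ⟨W2, hW2⟩ : ∃ W2 : ℕ → ℂ, W2 = fun n => r n * u1 n + s n * u2 n := ⟨_, rfl⟩
  have hW1t : Tendsto W1 atTop (𝓝 0) := by
    rw [hW1, ← hTu1]; exact (hp.mul hu1t).add (hq.mul hu2t)
  have hW2t : Tendsto W2 atTop (𝓝 0) := by
    rw [hW2, ← hTu2]; exact (hr.mul hu1t).add (hs.mul hu2t)
  -- stage inequality
  have stage : ∀ n, ∀ w : ℂ, ‖w‖ = 1 →
      ((u1 n * J (ε n) ((u1 n + w * v1 n) / 2)).re - MM (ε n) ((u1 n + w * v1 n) / 2)) +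
      ((u2 n * J (ε n) ((u2 n + w * v2 n) / 2)).re - MM (ε n) ((u2 n + w * v2 n) / 2)) +
      (W1 n * (conj w * J (ε n) ((u1 n + w * v1 n) / 2)) +
        W2 n * (conj w * J (ε n) ((u2 n + w * v2 n) / 2))).re +
      2 * c * ε n * (MM (ε n) ((u1 n + w * v1 n) / 2) + MM (ε n) ((u2 n + w * v2 n) / 2)) ≤ 0 := by
    intro n w hw
    have h1 := hnum n ((u1 n + w * v1 n) / 2) ((u2 n + w * v2 n) / 2)
    have e1 : p n * ((u1 n + w * v1 n) / 2) + q n * ((u2 n + w * v2 n) / 2) =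
        (W1 n + w * u1 n) / 2 := by
      rw [hW1, hu1def]; ring
    have e2 : r n * ((u1 n + w * v1 n) / 2) + s n * ((u2 n + w * v2 n) / 2) =
        (W2 n + w * u2 n) / 2 := by
      rw [hW2, hu2def]; ring
    rw [e1, e2] at h1
    set x := (u1 n + w * v1 n) / 2 with hx
    set y := (u2 n + w * v2 n) / 2 with hy
    have hww : conj w * w = 1 := by
      rw [mul_comm, Complex.mul_conj, ← Complex.sq_norm, hw]; norm_num
    have h2 : (conj w * ((W1 n + w * u1 n) / 2 * J (ε n) x + (W2 n + w * u2 n) / 2 *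
        J (ε n) y)).re ≤ ‖(W1 n + w * u1 n) / 2 * J (ε n) x + (W2 n + w * u2 n) / 2 *
        J (ε n) y‖ := by
      refine (Complex.re_le_norm _).trans ?_
      rw [norm_mul, RCLike.norm_conj, hw, one_mul]
    have h3 : 2 * (conj w * ((W1 n + w * u1 n) / 2 * J (ε n) x + (W2 n + w * u2 n) / 2 *
        J (ε n) y)) = u1 n * J (ε n) x + u2 n * J (ε n) y + (W1 n * (conj w * J (ε n) x) +
        W2 n * (conj w * J (ε n) y)) := by
      linear_combination (u1 n * J (ε n) x + u2 n * J (ε n) y) * hww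
    have h4 := congrArg Complex.re h3
    have h5 : (2 * (conj w * ((W1 n + w * u1 n) / 2 * J (ε n) x + (W2 n + w * u2 n) / 2 *
        J (ε n) y))).re = 2 * (conj w * ((W1 n + w * u1 n) / 2 * J (ε n) x +
        (W2 n + w * u2 n) / 2 * J (ε n) y)).re := by
      rw [Complex.mul_re]; simp
    rw [h5] at h4
    simp only [Complex.add_re] at h4
    have hM : 0 ≤ MM (ε n) x + MM (ε n) y := add_nonneg (MM_nonneg _ _) (MM_nonneg _ _)
    have h6 : R n * (MM (ε n) x + MM (ε n) y) ≤ (1 / 2 - c * ε n) * (MM (ε n) x + MM (ε n) y) :=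
      mul_le_mul_of_nonneg_right (hR n).le hM
    simp only [Complex.add_re]
    nlinarith
  -- limits
  have n1 : ‖(1:ℂ)‖ = 1 := by simp
  have n2 : ‖(-1:ℂ)‖ = 1 := by simp
  have n3 : ‖Complex.I‖ = 1 := by simp
  have n4 : ‖-Complex.I‖ = 1 := by simp
  have A1 := fun (w : ℂ) (hw : ‖w‖ = 1) => coord_one hε0 hεt hu11 hv11 hu1t hv1t hw
  have A2 := fun (w : ℂ) (hw : ‖w‖ = 1) => coord_one hε0 hεt hu21 hv21 hu2t hv2t hw
  have B1 := fun (w : ℂ) (hw : ‖w‖ = 1) => coord_M hε0 hεt hu11 hv11 hu1t hv1t hw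
  have B2 := fun (w : ℂ) (hw : ‖w‖ = 1) => coord_M hε0 hεt hu21 hv21 hu2t hv2t hw
  obtain ⟨l1, hl1⟩ := coord_J hε0 hεt hu11 hv11 hu1t hv1t
  obtain ⟨l2, hl2⟩ := coord_J hε0 hεt hu21 hv21 hu2t hv2t
  have hN : Tendsto (fun n => (‖u1 n‖ ^ 2 - ‖v1 n‖ ^ 2 + (‖u2 n‖ ^ 2 - ‖v2 n‖ ^ 2)) / ε n) atTop
      (𝓝 0) := by
    have h1 := ((tendsto_MM_quot hε0 hεt hv11 hv1t).add (tendsto_MM_quot hε0 hεt hv21 hv2t)).sub
      ((tendsto_MM_quot hε0 hεt hu11 hu1t).add (tendsto_MM_quot hε0 hεt hu21 hu2t))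
    have h2 : ‖V‖ ^ 2 * Real.log ‖V‖ + ‖W‖ ^ 2 * Real.log ‖W‖ -
        (‖U1‖ ^ 2 * Real.log ‖U1‖ + ‖U2‖ ^ 2 * Real.log ‖U2‖) = 0 := by
      rw [hmodn, hmodn2]; ring
    rw [h2] at h1
    refine h1.congr ?_
    intro n
    have h3 := hv n
    have h4 := hu n
    rw [← add_div, ← add_div, ← sub_div]
    congr 1
    linarith
  have hA : Tendsto (fun n =>
      (((u1 n * J (ε n) ((u1 n + 1 * v1 n) / 2)).re - MM (ε n) ((u1 n + 1 * v1 n) / 2) -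
        ((‖u1 n‖ ^ 2 - ‖v1 n‖ ^ 2) / 4)) / ε n +
      ((u1 n * J (ε n) ((u1 n + (-1) * v1 n) / 2)).re - MM (ε n) ((u1 n + (-1) * v1 n) / 2) -
        ((‖u1 n‖ ^ 2 - ‖v1 n‖ ^ 2) / 4)) / ε n +
      ((u1 n * J (ε n) ((u1 n + Complex.I * v1 n) / 2)).re -
        MM (ε n) ((u1 n + Complex.I * v1 n) / 2) -
        ((‖u1 n‖ ^ 2 - ‖v1 n‖ ^ 2) / 4)) / ε n +
      ((u1 n * J (ε n) ((u1 n + (-Complex.I) * v1 n) / 2)).re -
        MM (ε n) ((u1 n + (-Complex.I) * v1 n) / 2) -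
        ((‖u1 n‖ ^ 2 - ‖v1 n‖ ^ 2) / 4)) / ε n) +
      (((u2 n * J (ε n) ((u2 n + 1 * v2 n) / 2)).re - MM (ε n) ((u2 n + 1 * v2 n) / 2) -
        ((‖u2 n‖ ^ 2 - ‖v2 n‖ ^ 2) / 4)) / ε n +
      ((u2 n * J (ε n) ((u2 n + (-1) * v2 n) / 2)).re - MM (ε n) ((u2 n + (-1) * v2 n) / 2) -
        ((‖u2 n‖ ^ 2 - ‖v2 n‖ ^ 2) / 4)) / ε n +
      ((u2 n * J (ε n) ((u2 n + Complex.I * v2 n) / 2)).re -
        MM (ε n) ((u2 n + Complex.I * v2 n) / 2) -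
        ((‖u2 n‖ ^ 2 - ‖v2 n‖ ^ 2) / 4)) / ε n +
      ((u2 n * J (ε n) ((u2 n + (-Complex.I) * v2 n) / 2)).re -
        MM (ε n) ((u2 n + (-Complex.I) * v2 n) / 2) -
        ((‖u2 n‖ ^ 2 - ‖v2 n‖ ^ 2) / 4)) / ε n)) atTop (𝓝 0) := by
    have h1 := ((((A1 1 n1).add (A1 (-1) n2)).add (A1 _ n3)).add (A1 _ n4)).add
      ((((A2 1 n1).add (A2 (-1) n2)).add (A2 _ n3)).add (A2 _ n4))
    have h2 : (‖U1‖ ^ 2 - ‖V‖ ^ 2) / 4 * Real.log ‖(U1 + 1 * V) / 2‖ +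
        (‖U1‖ ^ 2 - ‖V‖ ^ 2) / 4 * Real.log ‖(U1 + (-1) * V) / 2‖ +
        (‖U1‖ ^ 2 - ‖V‖ ^ 2) / 4 * Real.log ‖(U1 + Complex.I * V) / 2‖ +
        (‖U1‖ ^ 2 - ‖V‖ ^ 2) / 4 * Real.log ‖(U1 + (-Complex.I) * V) / 2‖ +
        ((‖U2‖ ^ 2 - ‖W‖ ^ 2) / 4 * Real.log ‖(U2 + 1 * W) / 2‖ +
        (‖U2‖ ^ 2 - ‖W‖ ^ 2) / 4 * Real.log ‖(U2 + (-1) * W) / 2‖ +
        (‖U2‖ ^ 2 - ‖W‖ ^ 2) / 4 * Real.log ‖(U2 + Complex.I * W) / 2‖ +
        (‖U2‖ ^ 2 - ‖W‖ ^ 2) / 4 * Real.log ‖(U2 + (-Complex.I) * W) / 2‖) = 0 := by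
      rw [hpair 1 n1, hpair (-1) n2, hpair _ n3, hpair _ n4, neg_neg, neg_neg, hmod, hmod2]
      ring
    rw [h2] at h1
    exact h1
  have hW : Tendsto (fun n => (W1 n * ((J (ε n) ((u1 n + 1 * v1 n) / 2) -
      J (ε n) ((u1 n + (-1) * v1 n) / 2) +
      (-Complex.I) * J (ε n) ((u1 n + Complex.I * v1 n) / 2) +
      Complex.I * J (ε n) ((u1 n + (-Complex.I) * v1 n) / 2)) / (ε n : ℂ)) +
      W2 n * ((J (ε n) ((u2 n + 1 * v2 n) / 2) -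
      J (ε n) ((u2 n + (-1) * v2 n) / 2) +
      (-Complex.I) * J (ε n) ((u2 n + Complex.I * v2 n) / 2) +
      Complex.I * J (ε n) ((u2 n + (-Complex.I) * v2 n) / 2)) / (ε n : ℂ))).re) atTop (𝓝 0) := by
    have h1 := (hW1t.mul hl1).add (hW2t.mul hl2)
    rw [zero_mul, zero_mul, add_zero] at h1
    have h2 := (Complex.continuous_re.tendsto _).comp h1
    rw [Complex.zero_re] at h2
    exact h2
  have hMt : Tendsto (fun n => 2 * c * (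
      (MM (ε n) ((u1 n + 1 * v1 n) / 2) + MM (ε n) ((u2 n + 1 * v2 n) / 2)) +
      (MM (ε n) ((u1 n + (-1) * v1 n) / 2) + MM (ε n) ((u2 n + (-1) * v2 n) / 2)) +
      (MM (ε n) ((u1 n + Complex.I * v1 n) / 2) + MM (ε n) ((u2 n + Complex.I * v2 n) / 2)) +
      (MM (ε n) ((u1 n + (-Complex.I) * v1 n) / 2) +
        MM (ε n) ((u2 n + (-Complex.I) * v2 n) / 2)))) atTop (𝓝 (4 * c)) := by
    have h1 := ((((((B1 1 n1).add (B2 1 n1)).add ((B1 (-1) n2).add (B2 (-1) n2))).add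
      ((B1 _ n3).add (B2 _ n3))).add ((B1 _ n4).add (B2 _ n4))).const_mul (2 * c))
    have h2 : 2 * c * ((‖(U1 + 1 * V) / 2‖ ^ 2 + ‖(U2 + 1 * W) / 2‖ ^ 2) +
        (‖(U1 + (-1) * V) / 2‖ ^ 2 + ‖(U2 + (-1) * W) / 2‖ ^ 2) +
        (‖(U1 + Complex.I * V) / 2‖ ^ 2 + ‖(U2 + Complex.I * W) / 2‖ ^ 2) +
        (‖(U1 + (-Complex.I) * V) / 2‖ ^ 2 + ‖(U2 + (-Complex.I) * W) / 2‖ ^ 2)) = 4 * c := by
      have e : ∀ U V : ℂ, ‖(U + 1 * V) / 2‖ ^ 2 + ‖(U + (-1) * V) / 2‖ ^ 2 +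
          ‖(U + Complex.I * V) / 2‖ ^ 2 + ‖(U + (-Complex.I) * V) / 2‖ ^ 2 =
          ‖U‖ ^ 2 + ‖V‖ ^ 2 := by
        intro U V
        simp only [Complex.sq_norm, Complex.normSq_apply, Complex.mul_re, Complex.mul_im,
          Complex.add_re, Complex.add_im, Complex.div_ofNat_re, Complex.div_ofNat_im,
          Complex.neg_re, Complex.neg_im, Complex.I_re, Complex.I_im, Complex.one_re,
          Complex.one_im]
        ring
      have e1 := e U1 V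
      have e2 := e U2 W
      have e3 : (‖(U1 + 1 * V) / 2‖ ^ 2 + ‖(U2 + 1 * W) / 2‖ ^ 2) +
        (‖(U1 + (-1) * V) / 2‖ ^ 2 + ‖(U2 + (-1) * W) / 2‖ ^ 2) +
        (‖(U1 + Complex.I * V) / 2‖ ^ 2 + ‖(U2 + Complex.I * W) / 2‖ ^ 2) +
        (‖(U1 + (-Complex.I) * V) / 2‖ ^ 2 + ‖(U2 + (-Complex.I) * W) / 2‖ ^ 2) = 2 := by
        linarith
      rw [e3]; ring
    rw [h2] at h1
    exact h1
  have htot := ((hA.add hN).add hW).add hMt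
  have hle : ∀ n, _ ≤ (0:ℝ) := fun n => by
    have s1 := stage n 1 n1
    have s2 := stage n (-1) n2
    have s3 := stage n _ n3
    have s4 := stage n _ n4
    have hsum := add_le_add (add_le_add s1 s2) (add_le_add s3 s4)
    have hpos := hε0 n
    have hdiv := div_le_div_of_nonneg_right hsum hpos.le
    simp only [add_zero, zero_div] at hdiv
    exact hdiv
  have hfinal : 0 + 0 + 0 + 4 * c ≤ (0:ℝ) := by
    refine le_of_tendsto htot ?_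
    refine Eventually.of_forall ?_
    intro n
    refine le_trans (le_of_eq ?_) (hle n)
    simp only [map_one, map_neg, Complex.conj_I, neg_neg]
    exact combine_alg _ _ _ _ _ _ _ _ _ _ _ _ _ _ _ _ _ _ _ _ _ _ _ _ _ _ _ _ _ _ (hε0 n).ne'
  linarith

end Pool.Agent.Lib.MP_3da572_an
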