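import Pool.Agent.Lib.MP_3da572_an.Low
import Pool.Agent.Lib.MP_3da572_an.Defs

set_option autoImplicit false

namespace Pool.Agent.Lib.MP_3da572_an

open Filter Topology ComplexConjugate ENNReal

theorem mul_J (ε : ℝ) (z : ℂ) : z * J ε z = ((MM ε z : ℝ) : ℂ) := by
  simp only [J, MM]
  rw [← mul_assoc, Complex.mul_conj, ← Complex.sq_norm]
  push_cast
  ring

theorem norm_J {ε : ℝ} (hε : 0 < ε) (z : ℂ) : ‖J ε z‖ = ‖z‖ ^ (1 + ε) := by
  simp only [J]
  rw [norm_mul, RCLike.norm_conj, Complex.norm_real, Real.norm_of_nonneg (by positivity),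
    Real.rpow_add' (norm_nonneg z) (by positivity), Real.rpow_one]

theorem MM_eq_rpow' {ε : ℝ} (hε : 0 < ε) (z : ℂ) : MM ε z = ‖z‖ ^ (2 + ε) := by
  simp only [MM]
  rw [Real.rpow_add' (norm_nonneg z) (by positivity), Real.rpow_two]

section

variable (p : ℝ≥0∞)

/-- The vector `(x, y)` of `ℓ_p²`. -/
def vec (x y : ℂ) : PiLp p (fun _ : Fin 2 => ℂ) := WithLp.toLp p ![x, y]

@[simp] theorem vec_zero (x y : ℂ) : (vec p x y) 0 = x := rfl

@[simp] theorem vec_one (x y : ℂ) : (vec p x y) 1 = y := rfl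

theorem eq_vec (w : PiLp p (fun _ : Fin 2 => ℂ)) : w = vec p (w 0) (w 1) := by
  ext i
  fin_cases i <;> rfl

theorem vec_decomp (x y : ℂ) : vec p x y = x • vec p 1 0 + y • vec p 0 1 := by
  ext i
  fin_cases i <;> simp [vec]

variable [Fact (1 ≤ p)]

theorem norm_vec {ε : ℝ} (hε : 0 < ε) (hp : p.toReal = 2 + ε) (x y : ℂ) :
    ‖vec p x y‖ ^ (2 + ε) = MM ε x + MM ε y := by
  have hp0 : 0 < p.toReal := by rw [hp]; positivity
  rw [PiLp.norm_eq_sum hp0, hp, ← Real.rpow_mul (by positivity), Fin.sum_univ_two]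
  have : 1 / (2 + ε) * (2 + ε) = 1 := by field_simp
  rw [this, Real.rpow_one, MM_eq_rpow' hε, MM_eq_rpow' hε, vec_zero, vec_one]

theorem T_vec (T : PiLp p (fun _ : Fin 2 => ℂ) →L[ℂ] PiLp p (fun _ : Fin 2 => ℂ)) (x y : ℂ) :
    T (vec p x y) = vec p ((T (vec p 1 0)) 0 * x + (T (vec p 0 1)) 0 * y)
      ((T (vec p 1 0)) 1 * x + (T (vec p 0 1)) 1 * y) := by
  rw [vec_decomp p x y, map_add, map_smul, map_smul]
  ext i
  fin_cases i <;> simp [mul_comm]

/-- The functional `w ↦ w_0 a + w_1 b`. -/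
noncomputable def fun2 (a b : ℂ) : PiLp p (fun _ : Fin 2 => ℂ) →L[ℂ] ℂ :=
  a • (PiLp.proj (𝕜 := ℂ) p (fun _ : Fin 2 => ℂ) 0) +
    b • (PiLp.proj (𝕜 := ℂ) p (fun _ : Fin 2 => ℂ) 1)

theorem fun2_apply (a b : ℂ) (w : PiLp p (fun _ : Fin 2 => ℂ)) :
    fun2 p a b w = w 0 * a + w 1 * b := by
  have h : fun2 p a b w = a * w 0 + b * w 1 := rfl
  rw [h]; ring

theorem holder2 {ε : ℝ} (hε : 0 < ε) (hp : p.toReal = 2 + ε) (x y : ℂ)
    (w : PiLp p (fun _ : Fin 2 => ℂ)) :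
    ‖fun2 p (J ε x) (J ε y) w‖ ≤ ‖vec p x y‖ ^ (1 + ε) * ‖w‖ := by
  have hp0 : 0 < p.toReal := by rw [hp]; positivity
  have hconj : (2 + ε).HolderConjugate ((2 + ε) / (1 + ε)) := by
    rw [Real.holderConjugate_iff]
    refine ⟨by linarith, ?_⟩
    field_simp
    ring
  have h1 := Real.inner_le_Lp_mul_Lq_of_nonneg (Finset.univ : Finset (Fin 2))
    (f := fun i => ‖w i‖) (g := fun i => ‖(vec p x y) i‖ ^ (1 + ε)) hconj
    (fun _ _ => norm_nonneg _) (fun _ _ => by positivity)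
  simp only [Fin.sum_univ_two, vec_zero, vec_one] at h1
  rw [fun2_apply]
  refine (norm_add_le _ _).trans ?_
  rw [norm_mul, norm_mul, norm_J hε, norm_J hε]
  refine h1.trans (le_of_eq ?_)
  have h2 : (‖w 0‖ ^ (2 + ε) + ‖w 1‖ ^ (2 + ε)) ^ (1 / (2 + ε)) = ‖w‖ := by
    rw [PiLp.norm_eq_sum hp0, hp, Fin.sum_univ_two]
  have h3 : ∀ z : ℂ, (‖z‖ ^ (1 + ε)) ^ ((2 + ε) / (1 + ε)) = ‖z‖ ^ (2 + ε) := by
    intro z
    rw [← Real.rpow_mul (norm_nonneg _)]
    congr 1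
    field_simp
  rw [h2, h3, h3, ← MM_eq_rpow' hε, ← MM_eq_rpow' hε, ← norm_vec p hε hp,
    ← Real.rpow_mul (norm_nonneg _), mul_comm]
  congr 2
  field_simp

theorem num_ineq {ε : ℝ} (hε : 0 < ε) (hp : p.toReal = 2 + ε)
    (T : PiLp p (fun _ : Fin 2 => ℂ) →L[ℂ] PiLp p (fun _ : Fin 2 => ℂ)) (x y : ℂ) :
    ‖((T (vec p 1 0)) 0 * x + (T (vec p 0 1)) 0 * y) * J ε x +
      ((T (vec p 1 0)) 1 * x + (T (vec p 0 1)) 1 * y) * J ε y‖ ≤
      numRadius ℂ T * (MM ε x + MM ε y) := by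
  by_cases h0 : vec p x y = 0
  · have hx : x = 0 := by
      have := congrArg (fun w : PiLp p (fun _ : Fin 2 => ℂ) => w 0) h0
      simpa using this
    have hy : y = 0 := by
      have := congrArg (fun w : PiLp p (fun _ : Fin 2 => ℂ) => w 1) h0
      simpa using this
    subst hx hy
    simp [MM]
  · have hN : 0 < ‖vec p x y‖ := norm_pos_iff.mpr h0
    obtain ⟨N, hNdef⟩ : ∃ N, N = ‖vec p x y‖ := ⟨_, rfl⟩
    rw [← hNdef] at hN
    have hNε : 0 < N ^ (1 + ε) := by positivity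
    have hN2 : N ^ (2 + ε) = MM ε x + MM ε y := by rw [hNdef, norm_vec p hε hp]
    have hNN : N * N ^ (1 + ε) = N ^ (2 + ε) := by
      have h : N ^ (2 + ε) = N ^ (1 + (1 + ε)) := by
        congr 1; ring
      rw [h, Real.rpow_add hN 1 (1 + ε), Real.rpow_one]
    set z := ((N⁻¹ : ℝ) : ℂ) • vec p x y with hz
    set f := (((N ^ (1 + ε))⁻¹ : ℝ) : ℂ) • fun2 p (J ε x) (J ε y) with hf
    have hzn : ‖z‖ = 1 := by
      rw [hz, norm_smul, Complex.norm_real, Real.norm_of_nonneg (by positivity), ← hNdef,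
        inv_mul_cancel₀ hN.ne']
    have hfapp : ∀ w, f w = (((N ^ (1 + ε))⁻¹ : ℝ) : ℂ) * (w 0 * J ε x + w 1 * J ε y) := by
      intro w
      rw [hf]
      change (((N ^ (1 + ε))⁻¹ : ℝ) : ℂ) * fun2 p (J ε x) (J ε y) w = _
      rw [fun2_apply]
    have hfz : f z = 1 := by
      rw [hz, map_smul, hfapp, vec_zero, vec_one, mul_J, mul_J, ← Complex.ofReal_add, ← hN2,
        smul_eq_mul, ← Complex.ofReal_mul, ← Complex.ofReal_mul, ← hNN]
      have : N⁻¹ * ((N ^ (1 + ε))⁻¹ * (N * N ^ (1 + ε))) = 1 := by field_simp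
      rw [this, Complex.ofReal_one]
    have hfle : ‖f‖ ≤ 1 := by
      refine ContinuousLinearMap.opNorm_le_bound _ zero_le_one ?_
      intro w
      have h1 := holder2 p hε hp x y w
      rw [← hNdef] at h1
      have h2 : f w = (((N ^ (1 + ε))⁻¹ : ℝ) : ℂ) * fun2 p (J ε x) (J ε y) w := rfl
      rw [h2, norm_mul, Complex.norm_real, Real.norm_of_nonneg (by positivity), one_mul,
        inv_mul_le_iff₀ hNε]
      exact h1
    have hfn : ‖f‖ = 1 := by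
      refine le_antisymm hfle ?_
      have h1 := f.le_opNorm z
      rwa [hfz, hzn, norm_one, mul_one] at h1
    have h1 := le_numRadius T z f hzn hfn hfz
    have h2 : f (T z) = ((N ^ (2 + ε))⁻¹ : ℝ) *
        (((T (vec p 1 0)) 0 * x + (T (vec p 0 1)) 0 * y) * J ε x +
        ((T (vec p 1 0)) 1 * x + (T (vec p 0 1)) 1 * y) * J ε y) := by
      rw [hz, map_smul, map_smul, T_vec, hfapp, vec_zero, vec_one, smul_eq_mul, ← mul_assoc,
        ← Complex.ofReal_mul, ← hNN, mul_inv]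
    rw [h2, norm_mul, Complex.norm_real, Real.norm_of_nonneg (by positivity),
      inv_mul_le_iff₀ (by positivity), hN2] at h1
    rw [mul_comm (numRadius ℂ T)]
    exact h1

end

/-- Lower bound for the numerical index of complex `ℓ_p²`, `p` slightly larger than `2`. -/
theorem le_numIndex_pi (c : ℝ) (hc : 0 < c) : ∃ ε₀ : ℝ, 0 < ε₀ ∧ ∀ ε : ℝ, 0 < ε → ε < ε₀ →
    ∀ (p : ℝ≥0∞) [Fact (1 ≤ p)], p.toReal = 2 + ε →
      1 / 2 - c * ε ≤ numIndex ℂ (PiLp p (fun _ : Fin 2 => ℂ)) := by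
  obtain ⟨ε₀, hε₀, hlow⟩ := low c hc
  refine ⟨ε₀, hε₀, ?_⟩
  intro ε hε hεlt p _ hp
  refine le_numIndex _ ?_
  intro T hT
  have h2ε : 0 < 2 + ε := by positivity
  -- norm attaining vector
  have hprop : ProperSpace (PiLp p (fun _ : Fin 2 => ℂ)) := FiniteDimensional.proper ℂ _
  have hunit : ‖vec p 1 0‖ = 1 := by
    have h1 := norm_vec p hε hp 1 0
    have h2 : MM ε 1 + MM ε 0 = 1 := by simp [MM]
    rw [h2] at h1
    have h3 : ‖vec p 1 0‖ ^ (2 + ε) = 1 ^ (2 + ε) := by rw [h1, Real.one_rpow]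
    exact Real.rpow_left_injOn h2ε.ne' (norm_nonneg _) (by rw [Set.mem_ofPred_eq]; exact zero_le_one) h3
  obtain ⟨v, hv, hmax⟩ := (isCompact_sphere (0 : PiLp p (fun _ : Fin 2 => ℂ)) 1).exists_isMaxOn
    ⟨vec p 1 0, by rw [mem_sphere_zero_iff_norm]; exact hunit⟩
    (f := fun w => ‖T w‖) (T.continuous.norm.continuousOn)
  rw [mem_sphere_zero_iff_norm] at hv
  have hTv : ‖T v‖ = 1 := by
    refine le_antisymm ?_ ?_
    · have h1 := T.le_opNorm v
      rwa [hT, hv, one_mul] at h1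
    · rw [← hT]
      refine ContinuousLinearMap.opNorm_le_of_unit_norm (norm_nonneg _) ?_
      intro w hw
      exact hmax (by rw [mem_sphere_zero_iff_norm]; exact hw)
  refine hlow ε hε hεlt ((T (vec p 1 0)) 0) ((T (vec p 0 1)) 0) ((T (vec p 1 0)) 1)
    ((T (vec p 0 1)) 1) (v 0) (v 1) (numRadius ℂ T) ?_ ?_ ?_ ?_
  · intro x y
    exact num_ineq p hε hp T x y
  · intro x y
    rw [← norm_vec p hε hp, ← norm_vec p hε hp, ← T_vec]
    refine Real.rpow_le_rpow (norm_nonneg _) ?_ h2ε.le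
    have h1 := T.le_opNorm (vec p x y)
    rwa [hT, one_mul] at h1
  · rw [← norm_vec p hε hp, ← eq_vec, hv, Real.one_rpow]
  · rw [← norm_vec p hε hp, ← T_vec, ← eq_vec, hTv, Real.one_rpow]

end Pool.Agent.Lib.MP_3da572_an
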