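import Pool.Agent.Lib.MP_3da572_an.Upper

set_option autoImplicit false

namespace Pool.Agent.Lib.MP_3da572_an

open Filter Topology ComplexConjugate

/-- `1/√2`. -/
noncomputable def rr : ℝ := Real.sqrt (1 / 2)

theorem rr_sq : rr ^ 2 = 1 / 2 := Real.sq_sqrt (by norm_num)

theorem rr_pos : 0 < rr := Real.sqrt_pos.mpr (by norm_num)

theorem norm_le_one_of_sq {a : ℂ} {s : ℝ} (h : ‖a‖ ^ 2 ≤ s) (hs : s ≤ 1) : ‖a‖ ≤ 1 := by
  have h0 := norm_nonneg a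
  nlinarith

/-- Main estimate for the upper bound, on the Euclidean unit sphere. -/
theorem star_unit : ∃ ε₀ : ℝ, 0 < ε₀ ∧ ∀ ε : ℝ, 0 < ε → ε < ε₀ → ∀ a b c : ℂ,
    ‖a‖ ^ 2 + ‖b‖ ^ 2 + ‖c‖ ^ 2 = 1 →
    ‖(a - b) / 2 + c * rr‖ * ‖(J ε a + J ε b) * rr‖ ≤
      (1 / 2 - ε / 100) * kf ε * (MM ε a + MM ε b + MM ε c) := by
  by_contra hcon
  push Not at hcon
  have hex : ∀ n : ℕ, ∃ ε : ℝ, ∃ a b c : ℂ, 0 < ε ∧ ε < 1 / ((n:ℝ) + 1) ∧
      ‖a‖ ^ 2 + ‖b‖ ^ 2 + ‖c‖ ^ 2 = 1 ∧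
      (1 / 2 - ε / 100) * kf ε * (MM ε a + MM ε b + MM ε c) <
        ‖(a - b) / 2 + c * rr‖ * ‖(J ε a + J ε b) * rr‖ := by
    intro n
    obtain ⟨ε, h1, h2, a, b, c, h3, h4⟩ := hcon (1 / ((n:ℝ) + 1)) (by positivity)
    exact ⟨ε, a, b, c, h1, h2, h3, h4⟩
  choose ε' a' b' c' hε0' hε1' hunit' hviol' using hex
  have hmem : ∀ n, (a' n, b' n, c' n) ∈ Metric.closedBall (0 : ℂ × ℂ × ℂ) 1 := by
    intro n
    rw [mem_closedBall_zero_iff, Prod.norm_def, Prod.norm_def]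
    have h := hunit' n
    refine max_le ?_ (max_le ?_ ?_)
    · exact norm_le_one_of_sq (a := a' n) (s := 1) (by nlinarith [sq_nonneg ‖b' n‖, sq_nonneg ‖c' n‖]) le_rfl
    · exact norm_le_one_of_sq (a := b' n) (s := 1) (by nlinarith [sq_nonneg ‖a' n‖, sq_nonneg ‖c' n‖]) le_rfl
    · exact norm_le_one_of_sq (a := c' n) (s := 1) (by nlinarith [sq_nonneg ‖b' n‖, sq_nonneg ‖a' n‖]) le_rfl
  obtain ⟨⟨A, B, C⟩, -, φ, hφ, hlim⟩ := (isCompact_closedBall (0 : ℂ × ℂ × ℂ) 1).tendsto_subseq hmem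
  have hεt' : Tendsto ε' atTop (𝓝 0) :=
    squeeze_zero (fun n => (hε0' n).le) (fun n => (hε1' n).le) tendsto_one_div_add_atTop_nhds_zero_nat
  -- pass to the subsequence
  obtain ⟨ε, hεdef⟩ : ∃ ε : ℕ → ℝ, ε = ε' ∘ φ := ⟨_, rfl⟩
  obtain ⟨a, hadef⟩ : ∃ a : ℕ → ℂ, a = a' ∘ φ := ⟨_, rfl⟩
  obtain ⟨b, hbdef⟩ : ∃ b : ℕ → ℂ, b = b' ∘ φ := ⟨_, rfl⟩
  obtain ⟨c, hcdef⟩ : ∃ c : ℕ → ℂ, c = c' ∘ φ := ⟨_, rfl⟩
  have hεt : Tendsto ε atTop (𝓝 0) := by rw [hεdef]; exact hεt'.comp hφ.tendsto_atTop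
  have hε0 : ∀ n, 0 < ε n := by intro n; rw [hεdef]; exact hε0' _
  have hε1 : ∀ n, ε n < 1 := by
    intro n; rw [hεdef]
    refine (hε1' (φ n)).trans_le ?_
    rw [div_le_one (by positivity)]
    linarith [(Nat.cast_nonneg (φ n) : (0:ℝ) ≤ φ n)]
  have hunit : ∀ n, ‖a n‖ ^ 2 + ‖b n‖ ^ 2 + ‖c n‖ ^ 2 = 1 := by
    intro n; rw [hadef, hbdef, hcdef]; exact hunit' _
  have hviol : ∀ n, (1 / 2 - ε n / 100) * kf (ε n) * (MM (ε n) (a n) + MM (ε n) (b n) +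
      MM (ε n) (c n)) < ‖(a n - b n) / 2 + c n * rr‖ * ‖(J (ε n) (a n) + J (ε n) (b n)) * rr‖ := by
    intro n; rw [hadef, hbdef, hcdef, hεdef]; exact hviol' _
  have hA : Tendsto a atTop (𝓝 A) := by
    rw [hadef]; exact (continuous_fst.tendsto _).comp hlim
  have hB : Tendsto b atTop (𝓝 B) := by
    rw [hbdef]; exact ((continuous_fst.comp continuous_snd).tendsto _).comp hlim
  have hC : Tendsto c atTop (𝓝 C) := by
    rw [hcdef]; exact ((continuous_snd.comp continuous_snd).tendsto _).comp hlim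
  have ha1 : ∀ n, ‖a n‖ ≤ 1 := fun n => norm_le_one_of_sq (s := 1)
    (by nlinarith [hunit n, sq_nonneg ‖b n‖, sq_nonneg ‖c n‖]) le_rfl
  have hb1 : ∀ n, ‖b n‖ ≤ 1 := fun n => norm_le_one_of_sq (s := 1)
    (by nlinarith [hunit n, sq_nonneg ‖a n‖, sq_nonneg ‖c n‖]) le_rfl
  have hc1 : ∀ n, ‖c n‖ ≤ 1 := fun n => norm_le_one_of_sq (s := 1)
    (by nlinarith [hunit n, sq_nonneg ‖b n‖, sq_nonneg ‖a n‖]) le_rfl
  clear hcon hviol' hunit' hmem hlim hadef hbdef hcdef hεdef hεt' hε0' hε1'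
  have hunitL : ‖A‖ ^ 2 + ‖B‖ ^ 2 + ‖C‖ ^ 2 = 1 := by
    have h1 := ((hA.norm.pow 2).add (hB.norm.pow 2)).add (hC.norm.pow 2)
    have h2 : Tendsto (fun n => ‖a n‖ ^ 2 + ‖b n‖ ^ 2 + ‖c n‖ ^ 2) atTop (𝓝 1) := by
      simp only [hunit]; exact tendsto_const_nhds
    exact tendsto_nhds_unique h1 h2
  -- the sequences
  have hk := tendsto_kf_quot hε0 hεt
  have hMa := tendsto_MM_quot hε0 hεt ha1 hA
  have hMb := tendsto_MM_quot hε0 hεt hb1 hB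
  have hMc := tendsto_MM_quot hε0 hεt hc1 hC
  have hJa := tendsto_J_quot hε0 hεt ha1 hA
  have hJb := tendsto_J_quot hε0 hεt hb1 hB
  -- s_n
  obtain ⟨s, hs⟩ : ∃ s : ℕ → ℝ, s = fun n => MM (ε n) (a n) + MM (ε n) (b n) + MM (ε n) (c n) :=
    ⟨_, rfl⟩
  have hsq : Tendsto (fun n => (s n - 1) / ε n) atTop (𝓝 (‖A‖ ^ 2 * Real.log ‖A‖ +
      ‖B‖ ^ 2 * Real.log ‖B‖ + ‖C‖ ^ 2 * Real.log ‖C‖)) := by
    refine ((hMa.add hMb).add hMc).congr ?_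
    intro n
    rw [hs, ← add_div, ← add_div]
    congr 1
    have := hunit n
    simp only
    linarith
  have hslim : Tendsto s atTop (𝓝 1) := by
    have h1 : Tendsto (fun n => (s n - (fun _ => (1:ℝ)) n) / ((ε n : ℝ) : ℝ)) atTop _ := hsq
    exact tendsto_of_quot (𝕜 := ℝ) hε0 hεt h1 tendsto_const_nhds
  have hklim : Tendsto (fun n => kf (ε n)) atTop (𝓝 1) := by
    have h1 : Tendsto (fun n => (kf (ε n) - (fun _ => (1:ℝ)) n) / ((ε n : ℝ) : ℝ)) atTop _ := hk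
    exact tendsto_of_quot (𝕜 := ℝ) hε0 hεt h1 tendsto_const_nhds
  -- r_n
  obtain ⟨R, hR⟩ : ∃ R : ℕ → ℝ, R = fun n => (1 / 2 - ε n / 100) * kf (ε n) * s n := ⟨_, rfl⟩
  obtain ⟨E, hE⟩ : ∃ E : ℝ, E = ‖A‖ ^ 2 * Real.log ‖A‖ +
      ‖B‖ ^ 2 * Real.log ‖B‖ + ‖C‖ ^ 2 * Real.log ‖C‖ := ⟨_, rfl⟩
  rw [← hE] at hsq
  have hRq : Tendsto (fun n => (R n - 1 / 2) / ε n) atTop
      (𝓝 (1 / 2 * (Real.log 2 / 8 + E) - 1 / 100)) := by
    have h1 : Tendsto (fun n => 1 / 2 * ((kf (ε n) - 1) / ε n * s n + (s n - 1) / ε n) -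
        1 / 100 * (kf (ε n) * s n)) atTop
        (𝓝 (1 / 2 * (Real.log 2 / 8 * 1 + E) - 1 / 100 * (1 * 1))) :=
      (((hk.mul hslim).add hsq).const_mul _).sub ((hklim.mul hslim).const_mul _)
    rw [mul_one, mul_one, mul_one] at h1
    refine h1.congr ?_
    intro n
    have hne := (hε0 n).ne'
    rw [hR]
    field_simp
    ring
  have hRlim : Tendsto R atTop (𝓝 (1 / 2)) := by
    have h1 : Tendsto (fun n => (R n - (fun _ => (1 / 2:ℝ)) n) / ((ε n : ℝ) : ℝ)) atTop _ := hRq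
    exact tendsto_of_quot (𝕜 := ℝ) hε0 hεt h1 tendsto_const_nhds
  have hRpos : ∀ n, 0 ≤ R n := by
    intro n
    rw [hR, hs]
    have h1 : 0 ≤ 1 / 2 - ε n / 100 := by linarith [hε1 n]
    have h2 := kf_nonneg (ε n)
    simp only [MM]
    positivity
  have hR2q : Tendsto (fun n => (R n ^ 2 - 1 / 4) / ε n) atTop
      (𝓝 (1 / 2 * (Real.log 2 / 8 + E) - 1 / 100)) := by
    have h1 := hRq.mul (hRlim.add (tendsto_const_nhds (x := (1/2:ℝ))))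
    have h2 : (1 / 2 * (Real.log 2 / 8 + E) - 1 / 100) * (1 / 2 + 1 / 2) =
        1 / 2 * (Real.log 2 / 8 + E) - 1 / 100 := by ring
    rw [h2] at h1
    refine h1.congr ?_
    intro n
    ring
  -- P, z, Q
  obtain ⟨P, hP⟩ : ∃ P : ℕ → ℂ, P = fun n => (a n - b n) / 2 + c n * rr := ⟨_, rfl⟩
  obtain ⟨z, hz⟩ : ∃ z : ℕ → ℂ, z = fun n => (J (ε n) (a n) + J (ε n) (b n)) * rr := ⟨_, rfl⟩
  obtain ⟨Q, hQ⟩ : ∃ Q : ℕ → ℂ, Q = fun n => (conj (a n) + conj (b n)) * rr := ⟨_, rfl⟩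
  have hPlim : Tendsto P atTop (𝓝 ((A - B) / 2 + C * rr)) := by
    rw [hP]; exact ((hA.sub hB).div_const 2).add (hC.mul_const _)
  have hQlim : Tendsto Q atTop (𝓝 ((conj A + conj B) * rr)) := by
    rw [hQ]
    exact (((Complex.continuous_conj.tendsto A).comp hA).add
      ((Complex.continuous_conj.tendsto B).comp hB)).mul_const _
  have hzq : Tendsto (fun n => (z n - Q n) / (ε n : ℂ)) atTop (𝓝 ((hh A + hh B) * rr)) := by
    refine ((hJa.add hJb).mul_const (rr : ℂ)).congr ?_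
    intro n
    rw [hz, hQ]
    simp only
    ring
  have hzlim : Tendsto z atTop (𝓝 ((conj A + conj B) * rr)) :=
    tendsto_of_quot (𝕜 := ℂ) hε0 hεt hzq hQlim
  have hzq2 : Tendsto (fun n => (‖z n‖ ^ 2 - ‖Q n‖ ^ 2) / ε n) atTop
      (𝓝 (((hh A + hh B) * rr) * conj ((conj A + conj B) * rr + (conj A + conj B) * rr)).re) := by
    have h1 := hzq.mul ((Complex.continuous_conj.tendsto _).comp (hzlim.add hQlim))
    have h2 := (Complex.continuous_re.tendsto _).comp h1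
    refine h2.congr ?_
    intro n
    simp only [Function.comp]
    have h3 : (z n - Q n) / (ε n : ℂ) * conj (z n + Q n) =
        ((1 / ε n : ℝ) : ℂ) * ((z n - Q n) * conj (z n + Q n)) := by
      push_cast
      ring
    rw [h3, Complex.re_ofReal_mul]
    have h4 : ((z n - Q n) * conj (z n + Q n)).re = ‖z n‖ ^ 2 - ‖Q n‖ ^ 2 := by
      simp only [Complex.sq_norm, Complex.normSq_apply, Complex.mul_re, Complex.sub_re,
        Complex.sub_im, Complex.conj_re, Complex.conj_im, Complex.add_re, Complex.add_im]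
      ring
    rw [h4]
    ring
  -- the inequality at finite stage
  have hfin : ∀ n, (R n ^ 2 - 1 / 4) / ε n ≤ ‖P n‖ ^ 2 * ((‖z n‖ ^ 2 - ‖Q n‖ ^ 2) / ε n) := by
    intro n
    have h1 : R n ≤ ‖P n‖ * ‖z n‖ := by
      have := (hviol n).le
      rw [hR, hP, hz, hs]
      exact this
    have h2 : R n ^ 2 ≤ ‖P n‖ ^ 2 * ‖z n‖ ^ 2 := by
      have := pow_le_pow_left₀ (hRpos n) h1 2
      rwa [mul_pow] at this
    have h3 : ‖P n‖ ^ 2 + ‖Q n‖ ^ 2 ≤ 1 := by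
      have h4 : ‖(a n - b n) / 2 + c n * rr‖ ^ 2 + ‖(conj (a n) + conj (b n)) * rr‖ ^ 2 +
          ‖(a n - b n) / 2 - c n * rr‖ ^ 2 = 1 := by
        rw [← hunit n]
        simp only [Complex.sq_norm, Complex.normSq_apply, Complex.add_re, Complex.add_im,
          Complex.sub_re, Complex.sub_im, Complex.mul_re, Complex.mul_im, Complex.div_ofNat_re,
          Complex.div_ofNat_im, Complex.ofReal_re, Complex.ofReal_im, Complex.conj_re,
          Complex.conj_im]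
        ring_nf
        rw [rr_sq]
        ring
      rw [hP, hQ]
      have h5 : 0 ≤ ‖(a n - b n) / 2 - c n * rr‖ ^ 2 := by positivity
      simp only
      linarith
    have h4 : ‖P n‖ ^ 2 * ‖Q n‖ ^ 2 ≤ 1 / 4 := by
      nlinarith [sq_nonneg (‖P n‖ ^ 2 - ‖Q n‖ ^ 2), sq_nonneg ‖P n‖, sq_nonneg ‖Q n‖]
    rw [mul_div_assoc', div_le_div_iff_of_pos_right (hε0 n)]
    linarith
  have hG : 1 / 2 * (Real.log 2 / 8 + E) - 1 / 100 ≤ ‖(A - B) / 2 + C * rr‖ ^ 2 *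
      (((hh A + hh B) * rr) * conj ((conj A + conj B) * rr + (conj A + conj B) * rr)).re :=
    le_of_tendsto_of_tendsto' hR2q ((hPlim.norm.pow 2).mul hzq2) hfin
  have hPQ : 1 / 4 ≤ ‖(A - B) / 2 + C * rr‖ ^ 2 * ‖(conj A + conj B) * rr‖ ^ 2 := by
    have h1 : Tendsto (fun n => R n ^ 2) atTop (𝓝 ((1/2) ^ 2)) := hRlim.pow 2
    have h2 : Tendsto (fun n => ‖P n‖ ^ 2 * ‖z n‖ ^ 2) atTop
        (𝓝 (‖(A - B) / 2 + C * rr‖ ^ 2 * ‖(conj A + conj B) * rr‖ ^ 2)) :=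
      (hPlim.norm.pow 2).mul (hzlim.norm.pow 2)
    have h3 := le_of_tendsto_of_tendsto' h1 h2 (by
      intro n
      have h1 : R n ≤ ‖P n‖ * ‖z n‖ := by
        have := (hviol n).le
        rw [hR, hP, hz, hs]
        exact this
      have := pow_le_pow_left₀ (hRpos n) h1 2
      rwa [mul_pow] at this)
    norm_num at h3
    norm_num
    linarith
  have hfinal := final_upper A B C rr rr_sq rr_pos hunitL hPQ
  rw [hE] at hG
  linarith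

end Pool.Agent.Lib.MP_3da572_an
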