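import Pool.Agent.Lib.MP_3da572_an.Basic

set_option autoImplicit false

namespace Pool.Agent.Lib.MP_3da572_an

open Filter Topology ComplexConjugate

/-- The final algebraic contradiction for the upper bound. -/
theorem final_upper (a b c : ℂ) (r : ℝ) (hr : r ^ 2 = 1 / 2) (hr0 : 0 < r)
    (hunit : ‖a‖ ^ 2 + ‖b‖ ^ 2 + ‖c‖ ^ 2 = 1)
    (hPQ : 1 / 4 ≤ ‖(a - b) / 2 + c * r‖ ^ 2 * ‖(conj a + conj b) * r‖ ^ 2) :
    ‖(a - b) / 2 + c * r‖ ^ 2 *
        (((hh a + hh b) * r) * conj (((conj a + conj b) * r) + ((conj a + conj b) * r))).re -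
      (1 / 2 * (Real.log 2 / 8 + (‖a‖ ^ 2 * Real.log ‖a‖ + ‖b‖ ^ 2 * Real.log ‖b‖ +
        ‖c‖ ^ 2 * Real.log ‖c‖)) - 1 / 100) < 0 := by
  have hid : ‖(a - b) / 2 + c * r‖ ^ 2 + ‖(conj a + conj b) * r‖ ^ 2 +
      ‖(a - b) / 2 - c * r‖ ^ 2 = 1 := by
    rw [← hunit]
    simp only [Complex.sq_norm, Complex.normSq_apply, Complex.add_re, Complex.add_im,
      Complex.sub_re, Complex.sub_im, Complex.mul_re, Complex.mul_im, Complex.div_ofNat_re,
      Complex.div_ofNat_im, Complex.ofReal_re, Complex.ofReal_im, Complex.conj_re, Complex.conj_im]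
    ring_nf
    rw [hr]
    ring
  set p2 : ℝ := ‖(a - b) / 2 + c * r‖ ^ 2 with hp2
  set q2 : ℝ := ‖(conj a + conj b) * r‖ ^ 2 with hq2
  set w2 : ℝ := ‖(a - b) / 2 - c * r‖ ^ 2 with hw2
  have hw0 : 0 ≤ w2 := by positivity
  have hp0 : 0 ≤ p2 := by positivity
  have hq0 : 0 ≤ q2 := by positivity
  have hsum : p2 + q2 ≤ 1 := by linarith
  have hsq : (p2 - q2) ^ 2 ≤ 0 := by nlinarith
  have hpq : p2 = q2 := by
    have : (p2 - q2) ^ 2 = 0 := le_antisymm hsq (sq_nonneg _)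
    have := pow_eq_zero_iff (two_ne_zero) |>.mp this
    linarith
  have hphalf : p2 = 1 / 2 := by nlinarith
  have hqhalf : q2 = 1 / 2 := by rw [← hpq]; exact hphalf
  have hwzero : w2 = 0 := by linarith
  have hW : (a - b) / 2 - c * r = 0 := by
    rw [hw2] at hwzero
    have := pow_eq_zero_iff (two_ne_zero) |>.mp hwzero
    exact norm_eq_zero.mp this
  have hrc : ((r : ℂ)) ^ 2 = 1 / 2 := by
    have : ((r ^ 2 : ℝ) : ℂ) = ((1 / 2 : ℝ) : ℂ) := by rw [hr]
    push_cast at this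
    exact this
  have hab : a - b = 2 * (c * r) := by linear_combination 2 * hW
  -- |c|^2 = 1/4
  have hc2 : ‖c‖ ^ 2 = 1 / 4 := by
    have h1 : (a - b) / 2 + c * r = 2 * (c * r) := by rw [hab]; ring
    have h2 : p2 = 4 * (‖c‖ ^ 2 * r ^ 2) := by
      rw [hp2, h1, norm_mul, norm_mul, Complex.norm_real, Real.norm_of_nonneg hr0.le]
      norm_num
      ring
    rw [hphalf, hr] at h2
    linarith
  have hcn : ‖c‖ = 1 / 2 := by
    have h1 : 0 ≤ ‖c‖ := norm_nonneg c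
    nlinarith
  have hdiff : ‖a - b‖ ^ 2 = 1 / 2 := by
    rw [hab, norm_mul, norm_mul, Complex.norm_real, Real.norm_of_nonneg hr0.le, hcn]
    norm_num
    nlinarith
  have hplus : ‖a + b‖ ^ 2 = 1 := by
    have h1 : (conj a + conj b) * (r : ℂ) = conj (a + b) * r := by rw [map_add]
    rw [hq2, h1, norm_mul, RCLike.norm_conj, Complex.norm_real, Real.norm_of_nonneg hr0.le] at hqhalf
    rw [mul_pow, hr] at hqhalf
    linarith
  have hsumsq : ‖a‖ ^ 2 + ‖b‖ ^ 2 = 3 / 4 := by linarith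
  have hcross : a.re * b.re + a.im * b.im = 1 / 8 := by
    simp only [Complex.sq_norm, Complex.normSq_apply, Complex.add_re, Complex.add_im] at hplus hsumsq
    nlinarith
  have ha0 : a ≠ 0 := by
    rintro rfl
    simp at hcross
  have hb0 : b ≠ 0 := by
    rintro rfl
    simp at hcross
  have hprod : 2 * (‖a‖ * ‖b‖) ≤ 3 / 4 := by
    have h1 : 4 * (a * b) = (a + b) ^ 2 - (a - b) ^ 2 := by ring
    have h2 : ‖4 * (a * b)‖ ≤ ‖(a + b) ^ 2‖ + ‖(a - b) ^ 2‖ := by rw [h1]; exact norm_sub_le _ _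
    rw [norm_mul, norm_mul, norm_pow, norm_pow, hplus, hdiff] at h2
    norm_num at h2
    linarith
  have hre : (((hh a + hh b) * r) *
      conj (((conj a + conj b) * r) + ((conj a + conj b) * r))).re =
      (‖a‖ ^ 2 + 1 / 8) * Real.log ‖a‖ + (‖b‖ ^ 2 + 1 / 8) * Real.log ‖b‖ := by
    have h1 : (((hh a + hh b) * r) *
      conj (((conj a + conj b) * r) + ((conj a + conj b) * r))) =
      (conj a * (Real.log ‖a‖ : ℝ) + conj b * (Real.log ‖b‖ : ℝ)) * (a + b) := by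
      simp only [hh, map_add, map_mul, Complex.conj_conj, Complex.conj_ofReal]
      linear_combination 2 * ((conj a * (Real.log ‖a‖ : ℝ) + conj b * (Real.log ‖b‖ : ℝ)) *
        (a + b)) * hrc
    rw [h1, ← hcross]
    simp only [Complex.sq_norm, Complex.normSq_apply, Complex.add_re, Complex.add_im,
      Complex.mul_re, Complex.mul_im, Complex.ofReal_re, Complex.ofReal_im, Complex.conj_re,
      Complex.conj_im]
    ring
  rw [hre, hphalf, hc2, hcn]
  have hlc : Real.log (1 / 2) = -Real.log 2 := by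
    rw [one_div, Real.log_inv]
  rw [hlc]
  have hl : Real.log ‖a‖ + Real.log ‖b‖ + Real.log 2 ≤ -(1 / 4) := by
    have h1 : Real.log (2 * (‖a‖ * ‖b‖)) = Real.log ‖a‖ + Real.log ‖b‖ + Real.log 2 := by
      rw [Real.log_mul (by norm_num) (by positivity), Real.log_mul (norm_ne_zero_iff.mpr ha0)
        (norm_ne_zero_iff.mpr hb0)]
      ring
    rw [← h1]
    have h2 : 0 < 2 * (‖a‖ * ‖b‖) := by positivity
    have := Real.log_le_sub_one_of_pos h2
    linarith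
  nlinarith

/-- The ratio `‖u‖_p / ‖v‖_p`. -/
noncomputable def kf (ε : ℝ) : ℝ := (2 / (1 + (2:ℝ) ^ (-ε / 2))) ^ (1 / (2 + ε))

theorem kf_zero : kf 0 = 1 := by
  simp only [kf]
  norm_num

theorem kf_nonneg (ε : ℝ) : 0 ≤ kf ε := by
  simp only [kf]
  positivity

theorem kf_deriv : HasDerivAt kf (Real.log 2 / 8) 0 := by
  have h1 : HasDerivAt (fun ε : ℝ => -ε / 2) (-1 / 2) 0 :=
    (hasDerivAt_id (0:ℝ)).neg.div_const 2
  have h2 : HasDerivAt (fun ε : ℝ => (2:ℝ) ^ (-ε / 2)) (Real.log 2 * (-1/2)) 0 := by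
    have h2' := h1.const_rpow (a := 2) (by norm_num)
    refine h2'.congr_deriv ?_
    norm_num
  have h3 : HasDerivAt (fun ε : ℝ => 1 + (2:ℝ) ^ (-ε / 2)) (Real.log 2 * (-1/2)) 0 :=
    h2.const_add 1
  have h4 : HasDerivAt (fun ε : ℝ => 2 / (1 + (2:ℝ) ^ (-ε / 2))) (Real.log 2 / 4) 0 := by
    have h4' : HasDerivAt (fun ε : ℝ => (2:ℝ) / (1 + (2:ℝ) ^ (-ε / 2))) _ 0 :=
      (hasDerivAt_const (0:ℝ) (2:ℝ)).div h3 (by positivity)
    refine h4'.congr_deriv ?_
    norm_num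
    ring
  have h5 : HasDerivAt (fun ε : ℝ => 1 / (2 + ε)) (-1/4) 0 := by
    have h6 : HasDerivAt (fun ε : ℝ => 2 + ε) 1 0 := (hasDerivAt_id (0:ℝ)).const_add 2
    have h7 : HasDerivAt (fun ε : ℝ => (1:ℝ) / (2 + ε)) _ 0 :=
      (hasDerivAt_const (0:ℝ) (1:ℝ)).div h6 (by norm_num)
    refine h7.congr_deriv ?_
    norm_num
  have h8 : HasDerivAt kf _ 0 := h4.rpow h5 (by norm_num)
  refine h8.congr_deriv ?_
  norm_num
  ring

theorem tendsto_kf_quot {ε : ℕ → ℝ} (hε0 : ∀ n, 0 < ε n) (hε : Tendsto ε atTop (𝓝 0)) :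
    Tendsto (fun n => (kf (ε n) - 1) / ε n) atTop (𝓝 (Real.log 2 / 8)) := by
  have h1 := kf_deriv.tendsto_slope_zero
  have h2 : Tendsto ε atTop (𝓝[≠] 0) := by
    rw [tendsto_nhdsWithin_iff]
    exact ⟨hε, Eventually.of_forall fun n => (hε0 n).ne'⟩
  have h3 := h1.comp h2
  refine h3.congr ?_
  intro n
  simp only [Function.comp, zero_add, smul_eq_mul, kf_zero]
  rw [div_eq_inv_mul]

end Pool.Agent.Lib.MP_3da572_an
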