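import Pool.Agent.Lib.MP_3da572_an.UpperLp

set_option autoImplicit false

namespace Pool.Agent.Lib.MP_3da572_an

open Filter Topology ComplexConjugate ENNReal

theorem kf_rpow {ε : ℝ} (hε : 0 < ε) : kf ε ^ (2 + ε) = 2 / (1 + (2:ℝ) ^ (-ε / 2)) := by
  simp only [kf]
  rw [← Real.rpow_mul (by positivity)]
  have : 1 / (2 + ε) * (2 + ε) = 1 := by field_simp
  rw [this, Real.rpow_one]

theorem rr_rpow (ε : ℝ) : rr ^ (2 + ε) = 1 / 2 * (2:ℝ) ^ (-ε / 2) := by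
  rw [Real.rpow_add rr_pos, Real.rpow_two, rr_sq]
  congr 1
  simp only [rr]
  rw [Real.sqrt_eq_rpow, ← Real.rpow_mul (by norm_num), one_div, Real.inv_rpow (by norm_num),
    ← Real.rpow_neg (by norm_num)]
  congr 1
  ring

theorem half_rpow (ε : ℝ) : (1 / 2 : ℝ) ^ (2 + ε) = 1 / 4 * ((2:ℝ) ^ (-ε / 2)) ^ 2 := by
  rw [Real.rpow_add (by norm_num), Real.rpow_two, ← Real.rpow_natCast ((2:ℝ) ^ (-ε / 2)) 2,
    ← Real.rpow_mul (by norm_num)]
  have h1 : (1 / 2 : ℝ) ^ ε = (2:ℝ) ^ (-ε) := by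
    rw [one_div, Real.inv_rpow (by norm_num), ← Real.rpow_neg (by norm_num)]
  rw [h1]
  have h2 : -ε / 2 * ((2:ℕ):ℝ) = -ε := by push_cast; ring
  rw [h2]
  norm_num

section

variable (p : ℝ≥0∞) [Fact (1 ≤ p)]

/-- The functional `x ↦ x_0/2 - x_1/2 + x_2/√2`. -/
noncomputable def phi : lp (fun _ : ℕ => ℂ) p →L[ℂ] ℂ :=
  (1 / 2 : ℂ) • lp.evalCLM ℂ (fun _ : ℕ => ℂ) p 0 - (1 / 2 : ℂ) • lp.evalCLM ℂ (fun _ : ℕ => ℂ) p 1 +
    (rr : ℂ) • lp.evalCLM ℂ (fun _ : ℕ => ℂ) p 2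

theorem phi_apply (x : lp (fun _ : ℕ => ℂ) p) : phi p x = (x 0 - x 1) / 2 + x 2 * rr := by
  have h : phi p x = (1 / 2 : ℂ) * x 0 - (1 / 2 : ℂ) * x 1 + (rr : ℂ) * x 2 := rfl
  rw [h]
  ring

/-- The vector `(1,1,0)/√2`. -/
noncomputable def uu : lp (fun _ : ℕ => ℂ) p := (rr : ℂ) • (ei p 0 1 + ei p 1 1)

/-- Coefficients of the vector `(1/2,-1/2,1/√2)`. -/
noncomputable def vf (i : ℕ) : ℂ := if i = 0 then 1 / 2 else if i = 1 then -1 / 2 else rr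

/-- The vector `(1/2,-1/2,1/√2)`. -/
noncomputable def vv : lp (fun _ : ℕ => ℂ) p := ∑ i ∈ Finset.range 3, ei p i (vf i)

theorem norm_uu {ε : ℝ} (hε : 0 < ε) (hp : p.toReal = 2 + ε) :
    ‖uu p‖ ^ (2 + ε) = (2:ℝ) ^ (-ε / 2) := by
  have hp0 : 0 < p.toReal := by rw [hp]; positivity
  have h1 : uu p = ∑ i ∈ Finset.range 2, lp.single p i ((rr : ℂ)) := by
    simp only [uu, Finset.sum_range_succ, Finset.sum_range_zero, zero_add]
    rw [smul_add, ← ei_smul, ← ei_smul]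
    rfl
  have h2 := lp.norm_sum_single (E := fun _ : ℕ => ℂ) hp0 (fun _ => (rr : ℂ)) (Finset.range 2)
  rw [← h1, hp] at h2
  rw [h2]
  simp only [Finset.sum_const, Finset.card_range, Complex.norm_real, Real.norm_of_nonneg rr_pos.le]
  rw [rr_rpow]
  simp

theorem norm_vv {ε : ℝ} (hε : 0 < ε) (hp : p.toReal = 2 + ε) :
    ‖vv p‖ ^ (2 + ε) = 1 / 2 * (2:ℝ) ^ (-ε / 2) * (1 + (2:ℝ) ^ (-ε / 2)) := by
  have hp0 : 0 < p.toReal := by rw [hp]; positivity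
  have h2 := lp.norm_sum_single (E := fun _ : ℕ => ℂ) hp0 vf (Finset.range 3)
  have h1 : vv p = ∑ i ∈ Finset.range 3, lp.single p i (vf i) := rfl
  rw [← h1, hp] at h2
  rw [h2]
  simp only [Finset.sum_range_succ, Finset.sum_range_zero, zero_add]
  have e0 : ‖vf 0‖ = 1 / 2 := by simp [vf]
  have e1 : ‖vf 1‖ = 1 / 2 := by simp [vf]
  have e2 : ‖vf 2‖ = rr := by simp [vf, Complex.norm_real, abs_of_pos rr_pos]
  rw [e0, e1, e2, half_rpow, rr_rpow]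
  ring

theorem norm_uu_eq {ε : ℝ} (hε : 0 < ε) (hp : p.toReal = 2 + ε) :
    ‖uu p‖ = kf ε * ‖vv p‖ := by
  have h0 : (2 + ε) ≠ 0 := by positivity
  have h1 : ‖uu p‖ ^ (2 + ε) = (kf ε * ‖vv p‖) ^ (2 + ε) := by
    rw [Real.mul_rpow (kf_nonneg ε) (norm_nonneg _), kf_rpow hε, norm_uu p hε hp, norm_vv p hε hp]
    have : 1 + (2:ℝ) ^ (-ε / 2) ≠ 0 := by positivity
    field_simp
  exact Real.rpow_left_injOn h0 (norm_nonneg _) (mul_nonneg (kf_nonneg ε) (norm_nonneg _)) h1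

theorem phi_vv : phi p (vv p) = 1 := by
  have h : ∀ j : ℕ, j < 3 → (vv p : ∀ _ : ℕ, ℂ) j = vf j := by
    intro j hj
    simp only [vv]
    rw [lp.coeFn_sum, Finset.sum_apply]
    rw [Finset.sum_eq_single j]
    · simp only [ei]; rw [lp.single_apply_self]
    · intro b _ hb
      simp only [ei]; rw [lp.single_apply_ne]
      exact Ne.symm hb
    · intro hj'
      exact absurd (Finset.mem_range.mpr hj) hj'
  rw [phi_apply, h 0 (by norm_num), h 1 (by norm_num), h 2 (by norm_num)]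
  have hrc : ((rr : ℂ)) * rr = 1 / 2 := by
    have : ((rr ^ 2 : ℝ) : ℂ) = ((1 / 2 : ℝ) : ℂ) := by rw [rr_sq]
    push_cast at this
    rw [← sq]
    exact this
  simp only [vf]
  norm_num
  rw [hrc]
  norm_num

end

/-- Upper bound for the numerical index of complex `ℓ_p`, `p` slightly larger than `2`. -/
theorem numIndex_lp_le : ∃ ε₀ : ℝ, 0 < ε₀ ∧ ∀ ε : ℝ, 0 < ε → ε < ε₀ →
    ∀ (p : ℝ≥0∞) [Fact (1 ≤ p)], p.toReal = 2 + ε →
      numIndex ℂ (lp (fun _ : ℕ => ℂ) p) ≤ 1 / 2 - ε / 100 := by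
  obtain ⟨ε₀, hε₀, hstar⟩ := star_all
  refine ⟨min ε₀ 1, lt_min hε₀ one_pos, ?_⟩
  intro ε hε hεlt p _ hp
  have hε1 : ε < 1 := hεlt.trans_le (min_le_right _ _)
  have hstar' := hstar ε hε (hεlt.trans_le (min_le_left _ _))
  have hp0 : 0 < p.toReal := by rw [hp]; positivity
  have h2pos : (0:ℝ) < (2:ℝ) ^ (-ε / 2) := by positivity
  have hu0 : 0 < ‖uu p‖ := by
    rw [norm_pos_iff]
    intro h
    have h1 := norm_uu p hε hp
    rw [h, norm_zero, Real.zero_rpow (by positivity)] at h1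
    linarith
  have hv0 : 0 < ‖vv p‖ := by
    rw [norm_pos_iff]
    intro h
    have h1 := phi_vv p
    rw [h, map_zero] at h1
    exact zero_ne_one h1
  have hphi : 1 ≤ ‖phi p‖ * ‖vv p‖ := by
    have h1 := (phi p).le_opNorm (vv p)
    rwa [phi_vv, norm_one] at h1
  set T0 : lp (fun _ : ℕ => ℂ) p →L[ℂ] lp (fun _ : ℕ => ℂ) p := (phi p).smulRight (uu p) with hT0
  have hT0n : ‖T0‖ = ‖phi p‖ * ‖uu p‖ := ContinuousLinearMap.norm_smulRight_apply _ _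
  have hkT0 : kf ε ≤ ‖T0‖ := by
    rw [hT0n, norm_uu_eq p hε hp]
    have h1 := mul_le_mul_of_nonneg_left hphi (kf_nonneg ε)
    calc kf ε = kf ε * 1 := (mul_one _).symm
      _ ≤ kf ε * (‖phi p‖ * ‖vv p‖) := h1
      _ = _ := by ring
  have hT0pos : 0 < ‖T0‖ := by
    rw [hT0n]
    have : 0 < ‖phi p‖ := by
      rw [norm_pos_iff]
      intro h
      have h1 := phi_vv p
      rw [h] at h1
      simp at h1
    positivity
  have hTn : ‖((‖T0‖⁻¹ : ℝ) : ℂ) • T0‖ = 1 := by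
    rw [norm_smul, Complex.norm_real, norm_inv, norm_norm, inv_mul_cancel₀ hT0pos.ne']
  refine (numIndex_le _ hTn).trans ?_
  refine numRadius_le _ _ (by linarith) ?_
  intro x f hx hf hfx
  have h1 : f ((((‖T0‖⁻¹ : ℝ) : ℂ) • T0) x) = ((‖T0‖⁻¹ : ℝ) : ℂ) * (phi p x * f (uu p)) := by
    have h2 : (((‖T0‖⁻¹ : ℝ) : ℂ) • T0) x = ((‖T0‖⁻¹ : ℝ) : ℂ) • (phi p x • uu p) := rfl
    rw [h2, map_smul, map_smul, smul_eq_mul, smul_eq_mul]
  have h3 : f (uu p) = (J ε (x 0) + J ε (x 1)) * rr := by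
    simp only [uu]
    rw [map_smul, map_add, norming_coord hε hp x f hx hf hfx, norming_coord hε hp x f hx hf hfx,
      smul_eq_mul, mul_comm]
  rw [h1, norm_mul, norm_mul, Complex.norm_real, norm_inv, norm_norm, phi_apply, h3]
  have h4 := hstar' (x 0) (x 1) (x 2)
  have h5 : MM ε (x 0) + MM ε (x 1) + MM ε (x 2) ≤ 1 := by
    have h6 := lp.sum_rpow_le_norm_rpow hp0 x (Finset.range 3)
    simp only [Finset.sum_range_succ, Finset.sum_range_zero, zero_add] at h6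
    rw [hx, Real.one_rpow, hp] at h6
    rw [MM_eq_rpow hε, MM_eq_rpow hε, MM_eq_rpow hε]
    exact h6
  have h7 : 0 ≤ (1 / 2 - ε / 100) * kf ε := mul_nonneg (by linarith) (kf_nonneg ε)
  have h8 := h4.trans (mul_le_mul_of_nonneg_left h5 h7)
  rw [mul_one] at h8
  rw [inv_mul_le_iff₀ hT0pos]
  refine h8.trans ?_
  have h9 := mul_le_mul_of_nonneg_left hkT0 (by linarith : 0 ≤ 1 / 2 - ε / 100)
  linarith

end Pool.Agent.Lib.MP_3da572_an
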