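import Pool.Agent.Lib.MP_3da572_an.Star
import Pool.Agent.Lib.MP_3da572_an.Defs

set_option autoImplicit false

namespace Pool.Agent.Lib.MP_3da572_an

open Filter Topology ComplexConjugate ENNReal

theorem J_smul (ε s : ℝ) (hs : 0 < s) (z : ℂ) :
    J ε ((s : ℂ) * z) = ((s * s ^ ε : ℝ) : ℂ) * J ε z := by
  simp only [J]
  rw [norm_mul, Complex.norm_real, Real.norm_of_nonneg hs.le, map_mul, Complex.conj_ofReal,
    Real.mul_rpow hs.le (norm_nonneg z)]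
  push_cast
  ring

theorem MM_smul (ε s : ℝ) (hs : 0 < s) (z : ℂ) :
    MM ε ((s : ℂ) * z) = s * (s * s ^ ε) * MM ε z := by
  simp only [MM]
  rw [norm_mul, Complex.norm_real, Real.norm_of_nonneg hs.le,
    Real.mul_rpow hs.le (norm_nonneg z)]
  ring

theorem star_all : ∃ ε₀ : ℝ, 0 < ε₀ ∧ ∀ ε : ℝ, 0 < ε → ε < ε₀ → ∀ a b c : ℂ,
    ‖(a - b) / 2 + c * rr‖ * ‖(J ε a + J ε b) * rr‖ ≤
      (1 / 2 - ε / 100) * kf ε * (MM ε a + MM ε b + MM ε c) := by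
  obtain ⟨ε₀, hε₀, h⟩ := star_unit
  refine ⟨ε₀, hε₀, ?_⟩
  intro ε hε hεlt a b c
  by_cases h0 : ‖a‖ ^ 2 + ‖b‖ ^ 2 + ‖c‖ ^ 2 = 0
  · have ha : a = 0 := by
      have : ‖a‖ ^ 2 = 0 := by nlinarith [sq_nonneg ‖a‖, sq_nonneg ‖b‖, sq_nonneg ‖c‖]
      simpa using this
    have hb : b = 0 := by
      have : ‖b‖ ^ 2 = 0 := by nlinarith [sq_nonneg ‖a‖, sq_nonneg ‖b‖, sq_nonneg ‖c‖]
      simpa using this
    have hc : c = 0 := by
      have : ‖c‖ ^ 2 = 0 := by nlinarith [sq_nonneg ‖a‖, sq_nonneg ‖b‖, sq_nonneg ‖c‖]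
      simpa using this
    subst ha hb hc
    simp [MM]
  · have hpos : 0 < ‖a‖ ^ 2 + ‖b‖ ^ 2 + ‖c‖ ^ 2 :=
      lt_of_le_of_ne (by positivity) (Ne.symm h0)
    set s := Real.sqrt (‖a‖ ^ 2 + ‖b‖ ^ 2 + ‖c‖ ^ 2) with hs
    have hspos : 0 < s := Real.sqrt_pos.mpr hpos
    have hs2 : s ^ 2 = ‖a‖ ^ 2 + ‖b‖ ^ 2 + ‖c‖ ^ 2 := Real.sq_sqrt hpos.le
    have hsc : (s : ℂ) ≠ 0 := by exact_mod_cast hspos.ne'
    have e : ∀ z : ℂ, z = (s : ℂ) * (z / s) := fun z => by field_simp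
    have hn : ∀ z : ℂ, ‖z / (s:ℂ)‖ ^ 2 = ‖z‖ ^ 2 / s ^ 2 := fun z => by
      rw [norm_div, Complex.norm_real, Real.norm_of_nonneg hspos.le, div_pow]
    have hunit : ‖a / (s:ℂ)‖ ^ 2 + ‖b / (s:ℂ)‖ ^ 2 + ‖c / (s:ℂ)‖ ^ 2 = 1 := by
      rw [hn, hn, hn, ← add_div, ← add_div, ← hs2, div_self (by positivity)]
    have h1 := h ε hε hεlt _ _ _ hunit
    have h2 : (a - b) / 2 + c * rr = (s:ℂ) * ((a / s - b / s) / 2 + c / s * rr) := by
      field_simp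
    have h3 : (J ε a + J ε b) * rr = ((s * s ^ ε : ℝ) : ℂ) * ((J ε (a / s) + J ε (b / s)) * rr) := by
      conv_lhs => rw [e a, e b, J_smul ε s hspos, J_smul ε s hspos]
      ring
    have h4 : MM ε a + MM ε b + MM ε c = s * (s * s ^ ε) *
        (MM ε (a / s) + MM ε (b / s) + MM ε (c / s)) := by
      conv_lhs => rw [e a, e b, e c, MM_smul ε s hspos, MM_smul ε s hspos, MM_smul ε s hspos]
      ring
    have hsε : 0 < s * s ^ ε := by positivity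
    rw [h2, h3, h4, norm_mul, norm_mul, Complex.norm_real, Complex.norm_real,
      Real.norm_of_nonneg hspos.le, Real.norm_of_nonneg hsε.le]
    have h5 := mul_le_mul_of_nonneg_left h1 (by positivity : 0 ≤ s * (s * s ^ ε))
    calc s * ‖(a / s - b / s) / 2 + c / s * rr‖ * (s * s ^ ε * ‖(J ε (a / s) + J ε (b / s)) * rr‖)
        = s * (s * s ^ ε) * (‖(a / s - b / s) / 2 + c / s * rr‖ *
          ‖(J ε (a / s) + J ε (b / s)) * rr‖) := by ring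
      _ ≤ _ := h5
      _ = _ := by ring

theorem MM_eq_rpow {ε : ℝ} (hε : 0 < ε) (z : ℂ) : MM ε z = ‖z‖ ^ (2 + ε) := by
  simp only [MM]
  rw [Real.rpow_add' (norm_nonneg z) (by positivity), Real.rpow_two]

/-- Derivative of `t ↦ ‖a + t s‖ ^ (2+ε)` at `0`. -/
theorem hasDerivAt_norm_line (ε : ℝ) (hε : 0 < ε) (a s : ℂ) :
    HasDerivAt (fun t : ℝ => ‖a + (t : ℂ) * s‖ ^ (2 + ε))
      ((2 + ε) * ((J ε a * s).re)) 0 := by
  have h1 : HasDerivAt (fun t : ℝ => ‖a‖ ^ 2 + 2 * (conj a * s).re * t + ‖s‖ ^ 2 * t ^ 2)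
      (2 * (conj a * s).re) 0 := by
    have h2 : HasDerivAt (fun t : ℝ => 2 * (conj a * s).re * t) (2 * (conj a * s).re) 0 := by
      simpa using (hasDerivAt_id (0:ℝ)).const_mul (2 * (conj a * s).re)
    have h3 : HasDerivAt (fun t : ℝ => ‖s‖ ^ 2 * t ^ 2) 0 0 := by
      simpa using (hasDerivAt_pow 2 (0:ℝ)).const_mul (‖s‖ ^ 2)
    have h4 := (h2.const_add (‖a‖ ^ 2)).add h3
    rw [add_zero] at h4
    exact h4
  have h5 := h1.rpow_const (p := (2 + ε) / 2) (Or.inr (by linarith))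
  have hfun : (fun t : ℝ => ‖a + (t : ℂ) * s‖ ^ (2 + ε)) =
      fun t : ℝ => (‖a‖ ^ 2 + 2 * (conj a * s).re * t + ‖s‖ ^ 2 * t ^ 2) ^ ((2 + ε) / 2) := by
    ext t
    have h6 : ‖a‖ ^ 2 + 2 * (conj a * s).re * t + ‖s‖ ^ 2 * t ^ 2 = ‖a + (t : ℂ) * s‖ ^ 2 := by
      simp only [Complex.sq_norm, Complex.normSq_apply, Complex.add_re, Complex.add_im,
        Complex.mul_re, Complex.mul_im, Complex.ofReal_re, Complex.ofReal_im, Complex.conj_re,
        Complex.conj_im]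
      ring
    rw [h6, ← Real.rpow_natCast, ← Real.rpow_mul (norm_nonneg _)]
    congr 1
    push_cast
    ring
  rw [hfun]
  refine h5.congr_deriv ?_
  have h7 : (‖a‖ ^ 2 + 2 * (conj a * s).re * 0 + ‖s‖ ^ 2 * 0 ^ 2 : ℝ) = ‖a‖ ^ 2 := by ring
  rw [h7, ← Real.rpow_natCast, ← Real.rpow_mul (norm_nonneg _)]
  have h8 : ((2:ℕ):ℝ) * ((2 + ε) / 2 - 1) = ε := by push_cast; ring
  rw [h8]
  have h9 : (J ε a * s).re = (conj a * s).re * ‖a‖ ^ ε := by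
    simp only [J]
    have : conj a * ((‖a‖ ^ ε : ℝ) : ℂ) * s = (conj a * s) * ((‖a‖ ^ ε : ℝ) : ℂ) := by ring
    rw [this, Complex.re_mul_ofReal]
  rw [h9]
  ring

/-- The `i`-th unit vector of `ℓ_p`. -/
noncomputable def ei (p : ℝ≥0∞) (i : ℕ) (y : ℂ) : lp (fun _ : ℕ => ℂ) p := lp.single p i y

theorem ei_smul (p : ℝ≥0∞) (i : ℕ) (y : ℂ) : ei p i y = y • ei p i 1 := by
  simp only [ei]
  rw [← lp.single_smul]
  simp

/-- Smoothness of `ℓ_p`: the coordinates of a norming functional. -/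
theorem norming_coord {p : ℝ≥0∞} [Fact (1 ≤ p)] {ε : ℝ} (hε : 0 < ε) (hp : p.toReal = 2 + ε)
    (x : lp (fun _ : ℕ => ℂ) p) (f : lp (fun _ : ℕ => ℂ) p →L[ℂ] ℂ) (hx : ‖x‖ = 1)
    (hf : ‖f‖ = 1) (hfx : f x = 1) (i : ℕ) :
    f (ei p i 1) = J ε (x i) := by
  have hp0 : 0 < p.toReal := by rw [hp]; positivity
  obtain ⟨a, ha⟩ : ∃ a, a = f (ei p i 1) := ⟨_, rfl⟩
  -- norm formula
  have hnorm : ∀ y : ℂ, ‖x + y • ei p i 1‖ ^ (2 + ε) =
      1 - ‖x i‖ ^ (2 + ε) + ‖x i + y‖ ^ (2 + ε) := by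
    intro y
    have h1 := lp.norm_sub_norm_compl_sub_single hp0 x {i}
    have h2 := lp.norm_sub_norm_compl_sub_single hp0 (x + y • ei p i 1) {i}
    simp only [Finset.sum_singleton] at h1 h2
    have h3 : ((x + y • ei p i 1 : lp (fun _ : ℕ => ℂ) p) : ∀ _ : ℕ, ℂ) i = x i + y := by
      rw [← ei_smul]
      simp only [ei]
      rw [lp.coeFn_add, Pi.add_apply, lp.single_apply_self]
    have h4 : x + y • ei p i 1 - lp.single p i
        (((x + y • ei p i 1 : lp (fun _ : ℕ => ℂ) p) : ∀ _ : ℕ, ℂ) i) =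
        x - lp.single p i (x i) := by
      rw [h3, ← ei_smul]
      simp only [ei]
      rw [lp.single_add]
      abel
    rw [h4, h3] at h2
    rw [hx, Real.one_rpow] at h1
    rw [hp] at h1 h2
    linarith
  have hmain : ∀ s : ℂ, (J ε (x i) * s).re = (a * s).re := by
    intro s
    have hd1 := hasDerivAt_norm_line ε hε (x i) s
    have hd2 := hasDerivAt_norm_line ε hε 1 (a * s)
    have hJ1 : J ε 1 = 1 := by simp [J]
    rw [hJ1, one_mul] at hd2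
    have hd := (hd1.const_add (1 - ‖x i‖ ^ (2 + ε))).sub hd2
    have hmin : IsLocalMin (fun t : ℝ => 1 - ‖x i‖ ^ (2 + ε) + ‖x i + (t : ℂ) * s‖ ^ (2 + ε) -
        ‖(1:ℂ) + (t : ℂ) * (a * s)‖ ^ (2 + ε)) 0 := by
      refine Filter.Eventually.of_forall ?_
      intro t
      beta_reduce
      have h1 : (1 - ‖x i‖ ^ (2 + ε) + ‖x i + ((0:ℝ) : ℂ) * s‖ ^ (2 + ε) -
        ‖(1:ℂ) + ((0:ℝ) : ℂ) * (a * s)‖ ^ (2 + ε)) = 0 := by simp
      have h2 := hnorm ((t:ℂ) * s)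
      have h3 : f (x + ((t:ℂ) * s) • ei p i 1) = 1 + (t : ℂ) * (a * s) := by
        rw [map_add, map_smul, hfx, smul_eq_mul, ← ha]; ring
      have h4 : ‖(1:ℂ) + (t : ℂ) * (a * s)‖ ≤ ‖x + ((t:ℂ) * s) • ei p i 1‖ := by
        rw [← h3]
        have := f.le_opNorm (x + ((t:ℂ) * s) • ei p i 1)
        rwa [hf, one_mul] at this
      have h5 := Real.rpow_le_rpow (norm_nonneg _) h4 (by linarith : (0:ℝ) ≤ 2 + ε)
      rw [h2] at h5
      linarith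
    have h0 := hmin.hasDerivAt_eq_zero hd
    have h6 : (2 + ε) * ((J ε (x i) * s).re - (a * s).re) = 0 := by linarith
    have h7 : (2 + ε) ≠ 0 := by positivity
    have := (mul_eq_zero.mp h6).resolve_left h7
    linarith
  have hr := hmain 1
  have hi := hmain Complex.I
  simp only [mul_one, Complex.mul_re, Complex.I_re, Complex.I_im, mul_zero, zero_sub, mul_one] at hr hi
  rw [← ha]
  exact (Complex.ext hr (by linarith)).symm

end Pool.Agent.Lib.MP_3da572_an
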